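import Pool.Agent.Z15P.T2h62.J15.GOOD

/-!
Families of lines through points `(z, 0)` are special up to finite extensions.
-/

set_option autoImplicit false

open FF FF.PP MvPolynomial Pool.Agent.Z15P.Z15.H Pool.Agent.Z15P.Z15.J Pool.Agent.Z15P.Z15.J.Stm

namespace Pool.Agent.Z15P.T2h62.J15

open Pool.Agent.Z15P.T2h62.H15 (reg_sub exists_prim li_iff li_of_minor exists_minor)

section

variable {k κ : Type} [Field k] {f : MvPolynomial κ k} {d : ℕ}

/-- the identity `f(α z + β x) = c β^d` in all algebras -/
theorem ident_eval {E : Type} [Field E] [Algebra k E] {z x : κ → E} {c : E}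
    (hid : aeval (fun i => X 0 * C (z i) + X 1 * C (x i)) f = (C c * X 1 ^ d : MvPolynomial (Fin 2) E))
    (A : Type) [CommRing A] [Algebra k A] [Algebra E A] [IsScalarTower k E A] (α β : A) :
    aeval (fun i => α * algebraMap E A (z i) + β * algebraMap E A (x i)) f = algebraMap E A c * β ^ d := by
  have h3 := congrArg ((MvPolynomial.aeval ![α, β] : MvPolynomial (Fin 2) E →ₐ[E] A).restrictScalars k) hid
  rw [comp_aeval_apply] at h3
  have h4 : (fun i => ((MvPolynomial.aeval ![α, β] : MvPolynomial (Fin 2) E →ₐ[E] A).restrictScalars k)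
      (X 0 * C (z i) + X 1 * C (x i))) = fun i => α * algebraMap E A (z i) + β * algebraMap E A (x i) := by
    funext i
    simp only [AlgHom.restrictScalars_apply, map_add, map_mul, aeval_X, aeval_C, Matrix.cons_val_zero,
      Matrix.cons_val_one]
  rw [h4] at h3
  rw [h3]
  simp only [AlgHom.restrictScalars_apply, map_mul, map_pow, aeval_X, aeval_C, Matrix.cons_val_one,
    Matrix.cons_val_fin_one]

/-- extension of the field -/
theorem ident_ext {E L : Type} [Field E] [Algebra k E] [Field L] [Algebra k L] [Algebra E L]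
    [IsScalarTower k E L] {z x : κ → E} {c : E}
    (hid : aeval (fun i => X 0 * C (z i) + X 1 * C (x i)) f = (C c * X 1 ^ d : MvPolynomial (Fin 2) E)) :
    aeval (fun i => X 0 * C (algebraMap E L (z i)) + X 1 * C (algebraMap E L (x i))) f =
      (C (algebraMap E L c) * X 1 ^ d : MvPolynomial (Fin 2) L) := by
  have h1 := ident_eval hid (MvPolynomial (Fin 2) L) (X 0) (X 1)
  exact h1

/-- descent of the field -/
theorem ident_desc {E L : Type} [Field E] [Algebra k E] [Field L] [Algebra k L] [Algebra E L]
    [IsScalarTower k E L] {z x : κ → E} {c : E}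
    (hid : aeval (fun i => X 0 * C (algebraMap E L (z i)) + X 1 * C (algebraMap E L (x i))) f =
      (C (algebraMap E L c) * X 1 ^ d : MvPolynomial (Fin 2) L)) :
    aeval (fun i => X 0 * C (z i) + X 1 * C (x i)) f = (C c * X 1 ^ d : MvPolynomial (Fin 2) E) := by
  apply MvPolynomial.map_injective (algebraMap E L) (algebraMap E L).injective
  have h1 := comp_aeval_apply (fun i => (X 0 * C (z i) + X 1 * C (x i) : MvPolynomial (Fin 2) E))
    (MvPolynomial.mapAlgHom (IsScalarTower.toAlgHom k E L)) f
  refine h1.trans ?_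
  have h2 : (fun i => (MvPolynomial.mapAlgHom (IsScalarTower.toAlgHom k E L))
      (X 0 * C (z i) + X 1 * C (x i) : MvPolynomial (Fin 2) E)) =
      fun i => X 0 * C (algebraMap E L (z i)) + X 1 * C (algebraMap E L (x i)) := by
    funext i
    simp only [map_add, map_mul, MvPolynomial.mapAlgHom_apply, MvPolynomial.map_X, MvPolynomial.map_C]
    rfl
  rw [h2, hid]
  simp only [map_mul, map_pow, map_X, map_C]

/-- scaling -/
theorem ident_scale {L : Type} [Field L] [Algebra k L] {z x : κ → L} {c : L}
    (hid : aeval (fun i => X 0 * C (z i) + X 1 * C (x i)) f = (C c * X 1 ^ d : MvPolynomial (Fin 2) L))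
    (r : L) : aeval (fun i => X 0 * C (z i) + X 1 * C (r * x i)) f =
      (C (c * r ^ d) * X 1 ^ d : MvPolynomial (Fin 2) L) := by
  have h1 := ident_eval hid (MvPolynomial (Fin 2) L) (X 0) (X 1 * C r)
  have h2 : (fun i => X 0 * algebraMap L (MvPolynomial (Fin 2) L) (z i) +
      X 1 * C r * algebraMap L (MvPolynomial (Fin 2) L) (x i)) =
      fun i => X 0 * C (z i) + X 1 * C (r * x i) := by
    funext i
    rw [algebraMap_eq, C_mul]
    ring
  rw [h2] at h1
  rw [h1, algebraMap_eq, C_mul, C_pow]
  ring

end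

section

variable {k ι κ ν : Type} [Field k]

/-- the identity from a family of lines -/
theorem ident_vanish {e : ι ≃ κ ⊕ ν} {F : MvPolynomial ι k} {f : MvPolynomial κ k} {G : MvPolynomial ν k}
    {d : ℕ} (hG : G.IsHomogeneous d) (hJoin : IsJoin e F f G) {K κ' : Type} [Field K] [Field κ'] [Algebra k K]
    [Algebra K κ'] [Algebra k κ'] [IsScalarTower k K κ'] {z x : κ → κ'} {y : ν → κ'}
    (hV : Vanish (map (algebraMap k K) F) (jv e z 0) (jv e x y)) :
    aeval (fun i => X 0 * C (z i) + X 1 * C (x i)) f =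
      (C (-(aeval y G)) * X 1 ^ d : MvPolynomial (Fin 2) κ') := by
  have hinj : Function.Injective (algebraMap (MvPolynomial (Fin 2) κ')
      (FractionRing (MvPolynomial (Fin 2) κ'))) := IsFractionRing.injective _ _
  apply hinj
  have h1 := hV (FractionRing (MvPolynomial (Fin 2) κ'))
      (algebraMap (MvPolynomial (Fin 2) κ') (FractionRing (MvPolynomial (Fin 2) κ')) (X 0))
      (algebraMap (MvPolynomial (Fin 2) κ') (FractionRing (MvPolynomial (Fin 2) κ')) (X 1))
  have e3 : ∀ x : κ', algebraMap κ' (FractionRing (MvPolynomial (Fin 2) κ')) x =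
      algebraMap (MvPolynomial (Fin 2) κ') (FractionRing (MvPolynomial (Fin 2) κ')) (C x) := fun x => rfl
  have h0 : (fun i => algebraMap (MvPolynomial (Fin 2) κ') (FractionRing (MvPolynomial (Fin 2) κ')) (X 0) *
      algebraMap κ' (FractionRing (MvPolynomial (Fin 2) κ')) (jv e z 0 i) +
      algebraMap (MvPolynomial (Fin 2) κ') (FractionRing (MvPolynomial (Fin 2) κ')) (X 1) *
      algebraMap κ' (FractionRing (MvPolynomial (Fin 2) κ')) (jv e x y i)) =
      jv e (fun a => algebraMap (MvPolynomial (Fin 2) κ') (FractionRing (MvPolynomial (Fin 2) κ'))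
          (X 0 * C (z a) + X 1 * C (x a)))
        (fun b => algebraMap (MvPolynomial (Fin 2) κ') (FractionRing (MvPolynomial (Fin 2) κ')) (X 1) *
          algebraMap κ' (FractionRing (MvPolynomial (Fin 2) κ')) (y b)) := by
    funext i
    obtain ⟨q, rfl⟩ := e.symm.surjective i
    rcases q with a | b
    · simp only [jv_inl, map_add, map_mul, e3]
    · simp only [jv_inr, Pi.zero_apply, map_zero, mul_zero, zero_add]
  rw [aeval_map_algebraMap, h0, hJoin, aeval_smul hG] at h1
  have h2 : aeval (fun b => algebraMap κ' (FractionRing (MvPolynomial (Fin 2) κ')) (y b)) G =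
      algebraMap κ' (FractionRing (MvPolynomial (Fin 2) κ')) (aeval y G) :=
    (comp_aeval_apply _ (IsScalarTower.toAlgHom k κ' (FractionRing (MvPolynomial (Fin 2) κ'))) G).symm
  have h3 : aeval (fun a => algebraMap (MvPolynomial (Fin 2) κ') (FractionRing (MvPolynomial (Fin 2) κ'))
      (X 0 * C (z a) + X 1 * C (x a))) f = algebraMap (MvPolynomial (Fin 2) κ')
        (FractionRing (MvPolynomial (Fin 2) κ')) (aeval (fun a => X 0 * C (z a) + X 1 * C (x a)) f) :=
    (comp_aeval_apply _ (IsScalarTower.toAlgHom k (MvPolynomial (Fin 2) κ')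
      (FractionRing (MvPolynomial (Fin 2) κ'))) f).symm
  rw [h2, h3, e3] at h1
  rw [map_mul, map_pow, C_neg, map_neg]
  linear_combination h1

end

theorem nat_of_le {a : Cardinal.{0}} {n : ℕ} (h : a ≤ n) : ∃ δ : ℕ, a = δ ∧ δ ≤ n := by
  obtain ⟨δ, hδ⟩ := Cardinal.lt_aleph0.1 (h.trans_lt Cardinal.natCast_lt_aleph0)
  refine ⟨δ, hδ, ?_⟩
  rw [hδ] at h
  exact_mod_cast h

theorem nat_of_add_one {a : Cardinal.{0}} {l : ℕ} (h : a + 1 = l) : ∃ δ : ℕ, a = δ ∧ δ + 1 = l := by
  obtain ⟨δ, hδ, -⟩ := nat_of_le (a := a) (n := l) (by rw [← h]; exact le_self_add)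
  refine ⟨δ, hδ, ?_⟩
  rw [hδ] at h
  exact_mod_cast h

section

variable {k ι κ ν : Type} [Field k] [Fintype ι] [Fintype κ]

/-- families of lines which are special over the algebraic closure -/
theorem special_ext (hCYC : T_CYC2) {d : ℕ} (hd : 0 < d) {e : ι ≃ κ ⊕ ν} {f : MvPolynomial κ k}
    {G : MvPolynomial ν k} {K : Type} [Field K] [Infinite K] [Algebra k K] {l : ℕ} {κ' : Type} [Field κ']
    [Algebra K κ'] [Algebra k κ'] [IsScalarTower k K κ'] (htr : Algebra.trdeg K κ' + 1 = l)
    {D : Type} [Field D] [Algebra K D] [Algebra D κ'] [Algebra k D] [IsScalarTower k K D]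
    [IsScalarTower K D κ'] [IsScalarTower k D κ'] {n : ℕ}
    (hD : Algebra.trdeg K D ≤ n) {z u : κ → κ'} {y : ν → κ'} {x : κ → AlgebraicClosure κ'}
    {w c2 : AlgebraicClosure κ'} (hu : ∀ a, algebraMap κ' (AlgebraicClosure κ') (u a) = w * x a)
    (hzD : ∀ a, IsAlgebraic D (z a)) (hxD : ∀ a, IsAlgebraic D (x a))
    (hli : LinearIndependent (AlgebraicClosure κ') ![fun a => algebraMap κ' (AlgebraicClosure κ') (z a), x])
    (hid : aeval (fun i => X 0 * C (algebraMap κ' (AlgebraicClosure κ') (z i)) + X 1 * C (x i)) f =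
      (C c2 * X 1 ^ d : MvPolynomial (Fin 2) (AlgebraicClosure κ')))
    (hy : y ≠ 0 ∨ w ≠ 0) (hG : algebraMap κ' (AlgebraicClosure κ') (aeval y G) + c2 * w ^ d = 0) :
    ∃ N δ : ℕ, 0 < N ∧ δ ≤ n ∧ N • cyc K (gen (jv e z 0) (jv e u y)) ∈ TY d e f G K l δ := by
  classical
  -- reduce to `c2 = 0` or `c2 = 1`
  obtain ⟨c, x', w', hc, hw', hx'D, hli', hid', hy', hG'⟩ : ∃ (c : k) (x' : κ → AlgebraicClosure κ')
      (w' : AlgebraicClosure κ'), (c = 0 ∨ c = 1) ∧ (∀ a, w * x a = w' * x' a) ∧ (∀ a, IsAlgebraic D (x' a)) ∧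
      LinearIndependent (AlgebraicClosure κ') ![fun a => algebraMap κ' (AlgebraicClosure κ') (z a), x'] ∧
      (aeval (fun i => X 0 * C (algebraMap κ' (AlgebraicClosure κ') (z i)) + X 1 * C (x' i)) f =
      (C (algebraMap k (AlgebraicClosure κ') c) * X 1 ^ d : MvPolynomial (Fin 2) (AlgebraicClosure κ'))) ∧
      (y ≠ 0 ∨ w' ≠ 0) ∧ algebraMap κ' (AlgebraicClosure κ') (aeval y G) +
        algebraMap k (AlgebraicClosure κ') c * w' ^ d = 0 := by
    by_cases hc2 : c2 = 0
    · refine ⟨0, x, w, Or.inl rfl, fun a => rfl, hxD, hli, ?_, hy, ?_⟩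
      · rw [hid, hc2, map_zero, map_zero, C_0]
      · rw [hc2] at hG
        rw [map_zero]
        exact hG
    · obtain ⟨r, hr⟩ := IsAlgClosed.exists_pow_nat_eq c2 hd
      have hr0 : r ≠ 0 := by
        rintro rfl
        rw [zero_pow hd.ne'] at hr
        exact hc2 hr.symm
      have hc2D : IsAlgebraic D c2 := by
        have h1 := ident_eval hid (AlgebraicClosure κ') 0 1
        simp only [zero_mul, one_mul, zero_add, one_pow, mul_one, Algebra.algebraMap_self,
          RingHom.id_apply] at h1
        have h2 : ∀ p : MvPolynomial κ k, IsAlgebraic D (aeval (fun i => x i) p) := by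
          intro p
          induction p using MvPolynomial.induction_on with
          | C a =>
            rw [aeval_C, IsScalarTower.algebraMap_apply k D (AlgebraicClosure κ')]
            exact isAlgebraic_algebraMap _
          | add p q hp hq =>
            rw [map_add]
            exact hp.add hq
          | mul_X p i hp =>
            rw [map_mul, aeval_X]
            exact hp.mul (hxD i)
        rw [← h1]
        exact h2 f
      have hrD : IsAlgebraic D r := by
        apply IsAlgebraic.of_pow hd
        rw [hr]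
        exact hc2D
      refine ⟨1, fun a => r⁻¹ * x a, w * r, Or.inr rfl, fun a => ?_, fun a => hrD.inv.mul (hxD a), ?_, ?_, ?_, ?_⟩
      · rw [mul_assoc, mul_inv_cancel_left₀ hr0]
      · obtain ⟨i, j, hij⟩ := exists_minor hli
        refine li_of_minor (i := i) (j := j) ?_
        have h1 : algebraMap κ' (AlgebraicClosure κ') (z i) * (r⁻¹ * x j) -
            algebraMap κ' (AlgebraicClosure κ') (z j) * (r⁻¹ * x i) =
            r⁻¹ * (algebraMap κ' (AlgebraicClosure κ') (z i) * x j -
              algebraMap κ' (AlgebraicClosure κ') (z j) * x i) := by ring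
        rw [h1]
        exact mul_ne_zero (inv_ne_zero hr0) hij
      · rw [ident_scale hid, ← hr, inv_pow, mul_inv_cancel₀ (pow_ne_zero d hr0), map_one, map_one, C_1]
      · rcases hy with h | h
        · exact Or.inl h
        · exact Or.inr (mul_ne_zero h hr0)
      · rw [map_one, one_mul, mul_pow, hr, mul_comm (w ^ d) c2]
        exact hG
  -- the field of definition
  let S : Set (AlgebraicClosure κ') := Set.range x' ∪ {w'}
  have hSfin : S.Finite := (Set.finite_range x').union (Set.finite_singleton w')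
  let E2 : IntermediateField κ' (AlgebraicClosure κ') := IntermediateField.adjoin κ' S
  have hfin : FiniteDimensional κ' E2 := by
    have := hSfin.to_subtype
    apply IntermediateField.finiteDimensional_adjoin
    intro x _
    exact (Algebra.IsAlgebraic.isAlgebraic x).isIntegral
  have t1 : IsScalarTower k κ' E2 := IsScalarTower.of_algebraMap_eq fun _ => rfl
  have t2 : IsScalarTower K κ' E2 := IsScalarTower.of_algebraMap_eq fun _ => rfl
  have t3 : IsScalarTower D κ' E2 := IsScalarTower.of_algebraMap_eq fun _ => rfl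
  have t4 : IsScalarTower k K E2 := IsScalarTower.of_algebraMap_eq fun a => by
    rw [IsScalarTower.algebraMap_apply k κ' E2, IsScalarTower.algebraMap_apply k K κ',
      ← IsScalarTower.algebraMap_apply K κ' E2]
  have t5 : IsScalarTower K D E2 := IsScalarTower.of_algebraMap_eq fun a => by
    rw [IsScalarTower.algebraMap_apply K κ' E2, IsScalarTower.algebraMap_apply K D κ',
      ← IsScalarTower.algebraMap_apply D κ' E2]
  have t6 : IsScalarTower k E2 (AlgebraicClosure κ') := IsScalarTower.of_algebraMap_eq fun _ => rfl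
  have t7 : IsScalarTower D E2 (AlgebraicClosure κ') := IsScalarTower.of_algebraMap_eq fun _ => rfl
  let x2 : κ → E2 := fun a => ⟨x' a, IntermediateField.subset_adjoin _ _ (Or.inl ⟨a, rfl⟩)⟩
  let w2 : E2 := ⟨w', IntermediateField.subset_adjoin _ _ (Or.inr rfl)⟩
  let z2 : κ → E2 := fun a => algebraMap κ' E2 (z a)
  let y2 : ν → E2 := fun a => algebraMap κ' E2 (y a)
  have hinj : Function.Injective (algebraMap E2 (AlgebraicClosure κ')) :=
    (algebraMap E2 (AlgebraicClosure κ')).injective
  let K1 : IntermediateField K E2 := IntermediateField.adjoin K (Set.range z2 ∪ Set.range x2)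
  have hK1 : Algebra.EssFiniteType K K1 := by
    rw [IntermediateField.essFiniteType_iff]
    exact IntermediateField.fg_adjoin_of_finite ((Set.finite_range z2).union (Set.finite_range x2))
  have hx2D : ∀ a, IsAlgebraic D (x2 a) := fun a =>
    (isAlgebraic_algebraMap_iff hinj).1 (hx'D a)
  have hz2D : ∀ a, IsAlgebraic D (z2 a) := fun a => (hzD a).algebraMap
  have hK1tr : Algebra.trdeg K K1 ≤ n := by
    let Db : IntermediateField D E2 := algebraicClosure D E2
    have hle : K1 ≤ Db.restrictScalars K := by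
      rw [IntermediateField.adjoin_le_iff]
      rintro _ (⟨a, rfl⟩ | ⟨a, rfl⟩)
      · exact mem_algebraicClosure_iff.2 (hz2D a)
      · exact mem_algebraicClosure_iff.2 (hx2D a)
    have h1 : Algebra.trdeg K K1 ≤ Algebra.trdeg K Db :=
      trdeg_le_of_injective (IntermediateField.inclusion hle : K1 →ₐ[K] Db.restrictScalars K)
        (IntermediateField.inclusion_injective hle)
    have h2 : Algebra.trdeg K D + Algebra.trdeg D Db = Algebra.trdeg K Db := trdeg_add_eq K D
    have h3 : Algebra.trdeg D Db = 0 := trdeg_eq_zero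
    rw [← h2, h3, add_zero] at h1
    exact h1.trans hD
  obtain ⟨δ, hδ, hδn⟩ := nat_of_le hK1tr
  have hcyc := (hCYC K ι κ').2.2.2.2.1 E2 (jv e z 0) (jv e u y)
  refine ⟨Module.finrank κ' E2, δ, Module.finrank_pos, hδn, E2, inferInstance, inferInstance, inferInstance, t4,
    K1, z2, x2, c, w2, y2, ?_, ⟨hK1, hδ⟩, ?_, ?_, ?_, hc, ?_, ?_, ?_, ?_⟩
  · have h2 : Algebra.trdeg K κ' + Algebra.trdeg κ' E2 = Algebra.trdeg K E2 := trdeg_add_eq K κ'
    rw [← h2, trdeg_eq_zero (R := κ') (A := E2), add_zero, htr]
  · exact fun i => IntermediateField.subset_adjoin _ _ (Or.inl ⟨i, rfl⟩)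
  · exact fun i => IntermediateField.subset_adjoin _ _ (Or.inr ⟨i, rfl⟩)
  · obtain ⟨i, j, hij⟩ := exists_minor hli'
    refine li_of_minor (i := i) (j := j) ?_
    intro h0
    apply hij
    have h1 := congrArg (algebraMap E2 (AlgebraicClosure κ')) h0
    rw [map_zero] at h1
    rw [← h1]
    rfl
  · have h1 : aeval (fun i => X 0 * C (z2 i) + X 1 * C (x2 i)) f =
        (C (algebraMap k E2 c) * X 1 ^ d : MvPolynomial (Fin 2) E2) :=
      ident_desc (L := AlgebraicClosure κ') hid'
    intro A _ _ _ _ α β
    rw [ident_eval h1, ← IsScalarTower.algebraMap_apply k E2 A]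
  · rcases hy' with h | h
    · left
      intro h0
      apply h
      funext b
      have h1 := congrFun h0 b
      exact (map_eq_zero _).1 h1
    · right
      intro h0
      exact h (congrArg Subtype.val h0)
  · apply hinj
    rw [map_zero, ← hG', map_add, map_mul, map_pow]
    congr 1
    have h1 : aeval y2 G = algebraMap κ' E2 (aeval y G) :=
      (comp_aeval_apply _ (IsScalarTower.toAlgHom k κ' E2) G).symm
    rw [h1]
    rfl
  · rw [← hcyc]
    congr 2
    · rw [jv_comp]
      congr 1
      funext b
      exact map_zero _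
    · rw [jv_comp]
      congr 1
      funext a
      apply hinj
      exact (hu a).trans (hw' a)

end

/-- SL -/
theorem t_J_SLi : T_SLi := by
  intro hCYC k _ _ _ ι κ ν _ _ _ d hd hκ e F f G hF hf hG hJoin K _ _ l κ' _ _ htr z B hzB hV
  classical
  have hcharK : Infinite K := Infinite.of_injective _ (algebraMap k K).injective
  let i1 : Algebra k κ' := ((algebraMap K κ').comp (algebraMap k K)).toAlgebra
  have t1 : IsScalarTower k K κ' := IsScalarTower.of_algebraMap_eq fun _ => rfl
  obtain ⟨n, hn, hnl⟩ := nat_of_add_one htr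
  obtain ⟨x, y, rfl⟩ : ∃ (x : κ → κ') (y : ν → κ'), B = jv e x y := ⟨_, _, (jv_eta e B).symm⟩
  have hid := ident_vanish hG hJoin hV
  have hz0 : z ≠ 0 := by
    intro h0
    refine one_ne_zero ((li_iff.1 hzB) 1 0 ?_).1
    rw [h0, one_smul, zero_smul, add_zero]
    funext i
    simp only [jv]
    rcases e i with a | b <;> rfl
  have halg : ∀ a : κ', IsAlgebraic κ' a := fun a => isAlgebraic_algebraMap a
  by_cases hli : LinearIndependent κ' ![z, x]
  · obtain ⟨N, δ, h1, h2, h3⟩ := special_ext (D := κ') (n := n) hCYC hd (e := e) (f := f) (G := G) htr hn.le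
      (z := z) (u := x) (y := y) (x := fun a => algebraMap κ' (AlgebraicClosure κ') (x a)) (w := 1)
      (c2 := algebraMap κ' (AlgebraicClosure κ') (-(aeval y G))) (fun a => (one_mul _).symm) (fun a => halg _)
      (fun a => Algebra.IsAlgebraic.isAlgebraic _) (li_map _ hli) (ident_ext hid) (Or.inr one_ne_zero)
      (by rw [one_pow, mul_one, map_neg, add_neg_cancel])
    exact ⟨N, δ, h1, by omega, h3⟩
  · -- `x` is a multiple of `z`
    obtain ⟨μ, hμ⟩ : ∃ μ : κ', x = μ • z := by
      rw [li_iff] at hli
      push Not at hli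
      obtain ⟨α, β, h0, hne⟩ := hli
      have hβ : β ≠ 0 := by
        rintro rfl
        rw [zero_smul, add_zero] at h0
        rcases smul_eq_zero.1 h0 with h | h
        · exact hne h rfl
        · exact hz0 h
      refine ⟨-(α / β), ?_⟩
      funext i
      have h1 := congrFun h0 i
      simp only [Pi.add_apply, Pi.smul_apply, smul_eq_mul, Pi.zero_apply] at h1 ⊢
      field_simp
      linear_combination h1
    have hGy : aeval y G = 0 := by
      have h1 := ident_eval hid κ' (-μ) 1
      have h2 : (fun i => -μ * algebraMap κ' κ' (z i) + 1 * algebraMap κ' κ' (x i)) = fun i => 0 * z i := by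
        funext i
        rw [hμ]
        simp
      rw [h2, aeval_smul hf, zero_pow hd.ne', zero_mul] at h1
      simp only [Algebra.algebraMap_self, RingHom.id_apply, one_pow, mul_one] at h1
      exact neg_eq_zero.1 h1.symm
    have hfz : aeval (fun a => algebraMap κ' (AlgebraicClosure κ') (z a)) f = 0 := by
      have h1 := ident_eval hid (AlgebraicClosure κ') 1 0
      simp only [one_mul, zero_mul, add_zero, zero_pow hd.ne', mul_zero] at h1
      exact h1
    obtain ⟨j0, hj0⟩ : ∃ j, z j ≠ 0 := by
      by_contra h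
      push Not at h
      exact hz0 (funext h)
    have hy : y ≠ 0 := by
      intro h0
      refine one_ne_zero ((li_iff.1 hzB) (-μ) 1 ?_).2
      funext i
      obtain ⟨q, rfl⟩ := e.symm.surjective i
      rcases q with a | b
      · simp only [Pi.add_apply, Pi.smul_apply, jv_inl, smul_eq_mul, hμ, Pi.zero_apply]
        ring
      · simp only [Pi.add_apply, Pi.smul_apply, jv_inr, smul_eq_mul, h0, Pi.zero_apply]
        ring
    obtain ⟨x2, c, hx2, hx20, hexp, hJ⟩ := Pool.Agent.Z15P.T2h69.H15.t_EXP k (AlgebraicClosure κ') κ d f hf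
      (fun a => algebraMap κ' (AlgebraicClosure κ') (z a)) (Finset.univ.erase j0) (Finset.Icc 1 (d - 1)) (by simp)
      (by
        rw [Nat.card_Icc, Finset.card_erase_of_mem (Finset.mem_univ j0), Finset.card_univ]
        omega)
    have hsum : ∀ (A : Type) [CommRing A] [Algebra (AlgebraicClosure κ') A] (α β : A),
        ∑ j ∈ Finset.range (d + 1), algebraMap (AlgebraicClosure κ') A (c j) * α ^ (d - j) * β ^ j =
          algebraMap (AlgebraicClosure κ') A (c 0) * α ^ d + algebraMap (AlgebraicClosure κ') A (c d) * β ^ d := by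
      intro A _ _ α β
      have h1 : ∑ j ∈ Finset.range (d + 1), algebraMap (AlgebraicClosure κ') A (c j) * α ^ (d - j) * β ^ j =
          ∑ j ∈ ({0, d} : Finset ℕ), algebraMap (AlgebraicClosure κ') A (c j) * α ^ (d - j) * β ^ j := by
        symm
        apply Finset.sum_subset
        · intro j hj
          simp only [Finset.mem_insert, Finset.mem_singleton] at hj
          rw [Finset.mem_range]
          omega
        · intro j hj hj0
          simp only [Finset.mem_insert, Finset.mem_singleton, not_or] at hj0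
          rw [Finset.mem_range] at hj
          rw [hJ j (Finset.mem_Icc.2 ⟨by omega, by omega⟩), map_zero, zero_mul, zero_mul]
      rw [h1, Finset.sum_pair hd.ne, Nat.sub_zero, pow_zero, mul_one, Nat.sub_self, pow_zero, mul_one]
    have hc0 : c 0 = 0 := by
      have h1 := hexp (AlgebraicClosure κ') 1 0
      rw [hsum] at h1
      simp only [one_mul, zero_mul, add_zero, one_pow, mul_one, Algebra.algebraMap_self, RingHom.id_apply,
        zero_pow hd.ne', mul_zero] at h1
      rw [← h1]
      exact hfz
    have hid2 : aeval (fun i => X 0 * C (algebraMap κ' (AlgebraicClosure κ') (z i)) + X 1 * C (x2 i)) f =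
        (C (c d) * X 1 ^ d : MvPolynomial (Fin 2) (AlgebraicClosure κ')) := by
      have h1 := hexp (MvPolynomial (Fin 2) (AlgebraicClosure κ')) (X 0) (X 1)
      rw [hsum, hc0, map_zero, zero_mul, zero_add] at h1
      exact h1
    obtain ⟨l0, hl0⟩ : ∃ j, x2 j ≠ 0 := by
      by_contra h
      push Not at h
      exact hx2 (funext h)
    have hli2 : LinearIndependent (AlgebraicClosure κ')
        ![fun a => algebraMap κ' (AlgebraicClosure κ') (z a), x2] := by
      refine li_of_minor (i := j0) (j := l0) ?_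
      rw [hx20 j0 (by simp), mul_zero, sub_zero]
      exact mul_ne_zero ((map_ne_zero_iff _ (algebraMap κ' (AlgebraicClosure κ')).injective).2 hj0) hl0
    obtain ⟨N, δ, h1, h2, h3⟩ := special_ext (D := κ') (n := n) hCYC hd (e := e) (f := f) (G := G) htr hn.le
      (z := z) (u := 0) (y := y) (x := x2) (w := 0)
      (c2 := c d) (fun a => by rw [zero_mul, Pi.zero_apply, map_zero]) (fun a => halg _)
      (fun a => Algebra.IsAlgebraic.isAlgebraic _) hli2 hid2 (Or.inl hy)
      (by rw [hGy, map_zero, zero_pow hd.ne', mul_zero, add_zero])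
    refine ⟨N, δ, h1, by omega, ?_⟩
    have h4 : cyc K (gen (jv e z 0) (jv e (0 : κ → κ') y)) = cyc K (gen (jv e z 0) (jv e x y)) := by
      obtain ⟨m0, hm0⟩ : ∃ j, y j ≠ 0 := by
        by_contra h
        push Not at h
        exact hy (funext h)
      refine (hCYC K ι κ').2.2.2.2.2.2.1 _ _ _ _ hzB ?_ (Submodule.subset_span (by simp)) ?_
      · refine li_of_minor (i := e.symm (Sum.inl j0)) (j := e.symm (Sum.inr m0)) ?_
        simp only [jv_inl, jv_inr, Pi.zero_apply, mul_zero, sub_zero]
        exact mul_ne_zero hj0 hm0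
      · rw [Submodule.mem_span_pair]
        refine ⟨-μ, 1, ?_⟩
        funext i
        obtain ⟨q, rfl⟩ := e.symm.surjective i
        rcases q with a | b
        · simp only [Pi.add_apply, Pi.smul_apply, jv_inl, smul_eq_mul, hμ, Pi.zero_apply]
          ring
        · simp only [Pi.add_apply, Pi.smul_apply, jv_inr, smul_eq_mul, Pi.zero_apply]
          ring
    rw [← h4]
    exact h3

end Pool.Agent.Z15P.T2h62.J15
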