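import Pool.Agent.Z15P.T2h62.J15.SLi

/-!
Vertical limits of special families of lines are special.
-/

set_option autoImplicit false

open FF FF.PP MvPolynomial Pool.Agent.Z15P.Z15.H Pool.Agent.Z15P.Z15.J Pool.Agent.Z15P.Z15.J.Stm

namespace Pool.Agent.Z15P.T2h62.J15

open Pool.Agent.Z15P.T2h62.H15 (reg_sub exists_prim li_iff li_of_minor exists_minor)

theorem reg_aeval {k K E κ : Type} [Field k] [Field K] [Field E] [Algebra k K] [Algebra K E] [Algebra k E]
    [IsScalarTower k K E] {t : Place K E} {B : κ → E} (hB : ∀ i, t.Reg (B i)) (f : MvPolynomial κ k) :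
    t.Reg (aeval B f) := by
  induction f using MvPolynomial.induction_on with
  | C a =>
    rw [aeval_C, IsScalarTower.algebraMap_apply k K E]
    exact t.reg_const _
  | add p q hp hq =>
    rw [map_add]
    exact t.reg_add hp hq
  | mul_X p i hp =>
    rw [map_mul, aeval_X]
    exact t.reg_mul hp (hB i)

/-- reduction of the identity `f(α z + β x) = c β^d` -/
theorem ident_red {k K E κ : Type} [Field k] [Field K] [Field E] [Algebra k K] [Algebra K E] [Algebra k E]
    [IsScalarTower k K E] {t : Place K E} [Algebra k t.RF] [IsScalarTower k K t.RF] {f : MvPolynomial κ k}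
    {d : ℕ} {A B : κ → E} (hA : ∀ i, t.Reg (A i)) (hB : ∀ i, t.Reg (B i)) {c : E}
    (hid : aeval (fun i => X 0 * C (A i) + X 1 * C (B i)) f = (C c * X 1 ^ d : MvPolynomial (Fin 2) E)) :
    aeval (fun i => X 0 * C (t.red (A i)) + X 1 * C (t.red (B i))) f =
      (C (t.red c) * X 1 ^ d : MvPolynomial (Fin 2) t.RF) := by
  have hc : t.Reg c := by
    have h1 := ident_eval hid E 0 1
    simp only [zero_mul, one_mul, zero_add, one_pow, mul_one, Algebra.algebraMap_self, RingHom.id_apply] at h1
    rw [← h1]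
    exact reg_aeval hB f
  set A' : κ → t.O := fun i => ⟨A i, hA i⟩ with hA'
  set B' : κ → t.O := fun i => ⟨B i, hB i⟩ with hB'
  have ha : ∀ i, t.resHom (A' i) = t.red (A i) := fun i => by rw [t.red_of_reg (hA i)]
  have hb : ∀ i, t.resHom (B' i) = t.red (B i) := fun i => by rw [t.red_of_reg (hB i)]
  have hcr : ∀ a : k, t.Reg (algebraMap k E a) := fun a => by
    rw [IsScalarTower.algebraMap_apply k K E]
    exact t.reg_const _
  let σ : k →+* t.O := (algebraMap k E).codRestrict t.O hcr
  have hG : eval₂ (C.comp σ) (fun i => X 0 * C (A' i) + X 1 * C (B' i)) f =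
      (C (⟨c, hc⟩ : t.O) * X 1 ^ d : MvPolynomial (Fin 2) t.O) := by
    have hinj2 : Function.Injective (map (σ := Fin 2) t.O.subtype) :=
      map_injective _ Subtype.val_injective
    apply hinj2
    rw [eval₂_comp_left, map_mul, map_pow, map_C, map_X]
    refine Eq.trans ?_ hid
    rw [aeval_def]
    congr 1
    · ext a
      · simp only [RingHom.comp_apply, map_C]
        rfl
    · funext i
      simp only [Function.comp_apply, map_add, map_mul, map_C, map_X]
      rfl
  have h2 := congrArg (map t.resHom) hG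
  rw [eval₂_comp_left, map_mul, map_pow, map_C, map_X] at h2
  have h3 : t.resHom (⟨c, hc⟩ : t.O) = t.red c := (t.red_of_reg hc).symm
  rw [h3] at h2
  rw [← h2, aeval_def]
  congr 1
  · ext a
    simp only [RingHom.comp_apply, map_C]
    rw [MvPolynomial.algebraMap_apply, IsScalarTower.algebraMap_apply k K t.RF, t.algebraMap_RF]
    congr 1
    rw [← IsScalarTower.algebraMap_apply k K E, t.red_of_reg (hcr a)]
    rfl
  · funext i
    simp only [Function.comp_apply, map_add, map_mul, map_C, map_X, ha, hb]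

/-- SV -/
theorem t_J_SVi : T_SVi := by
  intro hABH hCYC hLIM k _ _ _ ι κ ν _ _ _ d hd e F f G hF hf hG hJoin K _ _ n δ K1 _ _ _ _ hK1 z x c hzx hc hfzx
    C' hC'
  classical
  have hcharK : Infinite K := Infinite.of_injective _ (algebraMap k K).injective
  obtain ⟨M, _, _, _, _, t, Q, a, b, hQ, hQG, hx1, htr, hlim, rfl⟩ := hC'
  have hgood := (t_J_GOOD k ι κ ν d hd e F f G hF hf hG hJoin K K1 z x c hzx hc hfzx).1
  -- the point `Q`
  set y : ν → M := fun i => Q (Sum.inl i) with hy
  set v : M := Q (Sum.inr ()) with hv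
  have hlm : lm (Stm.phi e x) Q = jv e (fun i => v * algebraMap K1 M (x i)) y := by
    rw [← elim_eta Q, lm_phi]
  have hcst : cst M (jv e z 0) = jv e (fun a => algebraMap K1 M (z a)) 0 := cst_jv e z
  have hVan := hgood.2 M Q hQG
  have hV0 := lim_vanish hlim hVan
  rw [hlm, hcst] at hlim
  -- the place below
  obtain ⟨e0, t0, hov⟩ := exists_over t hx1
  obtain ⟨m, hm1, hm2⟩ := hABH K K1 δ hK1.2 t0
  obtain ⟨z0, x0, p, r, s, hp, hs, hzx0, hz0, hx0, hlim0⟩ := (hLIM K κ K1 z x hzx t0).1
  -- algebra structures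
  let i1 : Algebra k t.RF := ((algebraMap K t.RF).comp (algebraMap k K)).toAlgebra
  let i2 : Algebra k t0.RF := ((algebraMap K t0.RF).comp (algebraMap k K)).toAlgebra
  let i3 : Algebra t0.RF t.RF := (hov.resMap : t0.RF →+* t.RF).toAlgebra
  have s1 : IsScalarTower k K t.RF := IsScalarTower.of_algebraMap_eq fun _ => rfl
  have s2 : IsScalarTower k K t0.RF := IsScalarTower.of_algebraMap_eq fun _ => rfl
  have s3 : IsScalarTower K t0.RF t.RF := IsScalarTower.of_algebraMap_eq fun a => (hov.resMap.commutes a).symm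
  have s4 : IsScalarTower k t0.RF t.RF := IsScalarTower.of_algebraMap_eq fun a => by
    rw [IsScalarTower.algebraMap_apply k K t.RF, IsScalarTower.algebraMap_apply k K t0.RF,
      ← IsScalarTower.algebraMap_apply K t0.RF t.RF]
  have hres : ∀ q : t0.RF, algebraMap t0.RF t.RF q = hov.resMap q := fun _ => rfl
  -- the identity over the residue field
  have hid1 : aeval (fun i => X 0 * C (z i) + X 1 * C (x i)) f =
      (C (algebraMap k K1 c) * X 1 ^ d : MvPolynomial (Fin 2) K1) := by
    have h1 := hfzx (MvPolynomial (Fin 2) K1) (X 0) (X 1)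
    exact h1
  have hid2 : aeval (fun i => X 0 * C (p * z i) + X 1 * C (r * z i + s * x i)) f =
      (C (algebraMap k K1 c * s ^ d) * X 1 ^ d : MvPolynomial (Fin 2) K1) := by
    have h1 := ident_eval hid1 (MvPolynomial (Fin 2) K1) (X 0 * C p + X 1 * C r) (X 1 * C s)
    have h2 : (fun i => (X 0 * C p + X 1 * C r) * algebraMap K1 (MvPolynomial (Fin 2) K1) (z i) +
        X 1 * C s * algebraMap K1 (MvPolynomial (Fin 2) K1) (x i)) =
        fun i => X 0 * C (p * z i) + X 1 * C (r * z i + s * x i) := by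
      funext i
      simp only [algebraMap_eq, C_mul, C_add]
      ring
    rw [h2] at h1
    rw [h1, algebraMap_eq, C_mul, C_pow]
    ring
  have hid3 := ident_red (t := t0) (fun i => (hz0 i).1) (fun i => (hx0 i).1) hid2
  have e1 : (fun i => t0.red (p * z i)) = z0 := funext fun i => (hz0 i).2
  have e2 : (fun i => t0.red (r * z i + s * x i)) = x0 := funext fun i => (hx0 i).2
  obtain ⟨c1, hc1⟩ : ∃ c1, c1 = t0.red (algebraMap k K1 c * s ^ d) := ⟨_, rfl⟩
  have hid4 : aeval (fun i => X 0 * C (z0 i) + X 1 * C (x0 i)) f =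
      (C c1 * X 1 ^ d : MvPolynomial (Fin 2) t0.RF) := by
    rw [hc1, ← hid3, ← e1, ← e2]
  have hid5 := ident_ext (L := t.RF) hid4
  -- the limit of `z`, `x` over `M`
  have hlimM := (hLIM K κ K1 z x hzx t0).2.2.2.2 M t e0 hov z0 x0 hlim0
  have hzxM : LinearIndependent M ![fun i => algebraMap K1 M (z i), fun i => algebraMap K1 M (x i)] :=
    li_map _ hzx
  have hproj : ∀ q ∈ Submodule.span t.RF {a, b}, (fun i => q (e.symm (Sum.inl i))) ∈
      Submodule.span t.RF {fun i => hov.resMap (z0 i), fun i => hov.resMap (x0 i)} := by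
    have hab : ∀ (q : ι → t.RF) (p' q' : M), (∀ i, t.Reg (p' * jv e (fun a => algebraMap K1 M (z a)) 0 i +
        q' * jv e (fun i => v * algebraMap K1 M (x i)) y i) ∧
        t.red (p' * jv e (fun a => algebraMap K1 M (z a)) 0 i +
          q' * jv e (fun i => v * algebraMap K1 M (x i)) y i) = q i) →
        (fun i => q (e.symm (Sum.inl i))) ∈
      Submodule.span t.RF {fun i => hov.resMap (z0 i), fun i => hov.resMap (x0 i)} := by
      intro q p' q' h
      refine (hLIM K κ M _ _ hzxM t).2.1 _ _ hlimM p' (q' * v) _ (fun i => ?_)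
      have h1 := h (e.symm (Sum.inl i))
      rw [jv_inl, jv_inl, ← mul_assoc] at h1
      exact h1
    intro q hq
    rw [Submodule.mem_span_pair] at hq
    obtain ⟨α, β, rfl⟩ := hq
    obtain ⟨-, p1, q1, r1, s1, -, hA, hB⟩ := hlim
    exact Submodule.add_mem _ (Submodule.smul_mem _ α (hab a p1 q1 hA)) (Submodule.smul_mem _ β (hab b r1 s1 hB))
  -- the first vector
  have hz0' : (fun i => hov.resMap (z0 i)) ≠ 0 := by
    intro h0
    have h1 : z0 = 0 := by
      funext i
      have h2 := congrFun h0 i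
      exact (map_eq_zero _).1 h2
    exact one_ne_zero ((li_iff.1 hzx0) 1 0 (by rw [h1]; simp)).1
  have hm1' : jv e (fun i => hov.resMap (z0 i)) 0 ∈ Submodule.span t.RF {a, b} := by
    refine lim_mem (c := algebraMap K1 M p) (c' := 0) hlim (fun i => ?_)
    obtain ⟨q, rfl⟩ := e.symm.surjective i
    rcases q with a | b
    · rw [jv_inl, jv_inl, zero_mul, add_zero, ← map_mul, ← hov.resMap_red (hz0 a).1, (hz0 a).2, jv_inl]
      exact ⟨hov.reg.2 (hz0 a).1, rfl⟩
    · rw [jv_inr, jv_inr, zero_mul, add_zero, jv_inr, Pi.zero_apply, mul_zero]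
      exact ⟨t.reg_zero, t.red_zero⟩
  obtain ⟨v1, hv1, hli1⟩ := exists_second hlim.1 (jv_ne_zero e hz0' (0 : ν → t.RF))
  have hpr := hproj v1 hv1
  rw [Submodule.mem_span_pair] at hpr
  obtain ⟨μ, v0, hμ⟩ := hpr
  obtain ⟨y0, hy0⟩ : ∃ y0 : ν → t.RF, y0 = fun b => v1 (e.symm (Sum.inr b)) := ⟨_, rfl⟩
  have hv2 : jv e (fun i => v0 * hov.resMap (x0 i)) y0 =
      v1 - μ • jv e (fun i => hov.resMap (z0 i)) (0 : ν → t.RF) := by
    funext i
    obtain ⟨q, rfl⟩ := e.symm.surjective i
    rcases q with a | b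
    · have h1 := congrFun hμ a
      simp only [Pi.add_apply, Pi.smul_apply, smul_eq_mul] at h1
      simp only [Pi.sub_apply, Pi.smul_apply, smul_eq_mul, jv_inl]
      linear_combination h1
    · simp only [Pi.sub_apply, Pi.smul_apply, smul_eq_mul, jv_inr, Pi.zero_apply, mul_zero, sub_zero, hy0]
  have hm2' : jv e (fun i => v0 * hov.resMap (x0 i)) y0 ∈ Submodule.span t.RF {a, b} := by
    rw [hv2]
    exact Submodule.sub_mem _ hv1 (Submodule.smul_mem _ _ hm1')
  have hli2 : LinearIndependent t.RF ![jv e (fun i => hov.resMap (z0 i)) (0 : ν → t.RF),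
      jv e (fun i => v0 * hov.resMap (x0 i)) y0] := by
    rw [hv2, li_iff]
    intro α β h0
    have h1 := (li_iff.1 hli1) (α - β * μ) β (by
      rw [← h0]
      module)
    refine ⟨?_, h1.2⟩
    have h2 := h1.1
    rw [h1.2, zero_mul, sub_zero] at h2
    exact h2
  have hV2 := Vanish.span hV0 hm1' hm2'
  have hid6 := ident_vanish hG hJoin hV2
  have hGy : aeval y0 G + algebraMap t0.RF t.RF c1 * v0 ^ d = 0 := by
    have h1 := ident_eval hid6 t.RF 0 1
    have h2 := ident_eval hid5 t.RF 0 v0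
    simp only [zero_mul, one_mul, zero_add, one_pow, mul_one, Algebra.algebraMap_self, RingHom.id_apply] at h1 h2
    have h3 := h1.symm.trans h2
    linear_combination -h3
  have hyv : y0 ≠ 0 ∨ v0 ≠ 0 := by
    by_contra h
    push Not at h
    refine one_ne_zero ((li_iff.1 hli2) 0 1 ?_).2
    funext i
    obtain ⟨q, rfl⟩ := e.symm.surjective i
    rcases q with a | b
    · simp [jv_inl, h.2]
    · simp [jv_inr, h.1]
  obtain ⟨N, δ', h1, h2, h3⟩ := special_ext (D := t0.RF) (n := m) (l := n + 1) hCYC hd (e := e) (f := f) (G := G)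
    (K := K) (κ' := t.RF) (by rw [htr]; push_cast; rfl) hm2.le
    (z := fun i => hov.resMap (z0 i)) (u := fun i => v0 * hov.resMap (x0 i)) (y := y0)
    (x := fun a => algebraMap t.RF (AlgebraicClosure t.RF) (hov.resMap (x0 a)))
    (w := algebraMap t.RF (AlgebraicClosure t.RF) v0)
    (c2 := algebraMap t.RF (AlgebraicClosure t.RF) (algebraMap t0.RF t.RF c1)) (fun a => map_mul _ _ _)
    (fun a => isAlgebraic_algebraMap (z0 a))
    (fun a => (isAlgebraic_algebraMap (A := t.RF) (x0 a)).algebraMap)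
    (li_map _ (li_map (hov.resMap : t0.RF →+* t.RF) hzx0)) (ident_ext hid5)
    (by
      rcases hyv with h | h
      · exact Or.inl h
      · exact Or.inr ((map_ne_zero_iff _ (algebraMap t.RF (AlgebraicClosure t.RF)).injective).2 h))
    (by rw [← map_pow, ← map_mul, ← map_add, hGy, map_zero])
  refine ⟨N, δ', h1, by omega, ?_⟩
  have h4 := (hCYC K ι t.RF).2.2.2.2.2.2.1 a b _ _ hlim.1 hli2 hm1' hm2'
  rw [← h4]
  exact h3

end Pool.Agent.Z15P.T2h62.J15
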