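import Pool.Agent.Z15P.T2h62.J15.SVi
import Pool.Agent.Z15P.T2h99.J.Lin
import Pool.Agent.Z15P.T2h69.H15.Root

/-!
Roitman's theorem for zero-cycles on a hypersurface of degree `d` in at least `d + 1` variables.
-/

set_option autoImplicit false

open FF FF.PP MvPolynomial Pool.Agent.Z15P.Z15.H Pool.Agent.Z15P.Z15.J Pool.Agent.Z15P.Z15.J.Stm

namespace Pool.Agent.Z15P.T2h62.J15

open Pool.Agent.Z15P.T2h62.H15 (reg_sub exists_prim li_iff li_of_minor exists_minor)

theorem exists_dir {k L κ : Type} [Field k] [Field L] [IsAlgClosed L] [Algebra k L] [Fintype κ] {d : ℕ}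
    (hd : 0 < d) (hκ : d + 1 ≤ Fintype.card κ) {f : MvPolynomial κ k} (hf : f.IsHomogeneous d) {x : κ → L}
    (hx : x ≠ 0) (hfx : aeval x f = 0) : ∃ (w : κ → L) (c : L), LinearIndependent L ![x, w] ∧
      aeval (fun i => X 0 * C (x i) + X 1 * C (w i)) f = (C c * X 1 ^ d : MvPolynomial (Fin 2) L) := by
  classical
  obtain ⟨j0, hj0⟩ : ∃ j, x j ≠ 0 := by
    by_contra h
    push Not at h
    exact hx (funext h)
  obtain ⟨x2, c, hx2, hx20, hexp, hJ⟩ := Pool.Agent.Z15P.T2h69.H15.t_EXP k L κ d f hf
    x (Finset.univ.erase j0) (Finset.Icc 1 (d - 1)) (by simp)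
    (by
      rw [Nat.card_Icc, Finset.card_erase_of_mem (Finset.mem_univ j0), Finset.card_univ]
      omega)
  have hsum : ∀ (A : Type) [CommRing A] [Algebra L A] (α β : A),
      ∑ j ∈ Finset.range (d + 1), algebraMap L A (c j) * α ^ (d - j) * β ^ j =
        algebraMap L A (c 0) * α ^ d + algebraMap L A (c d) * β ^ d := by
    intro A _ _ α β
    have h1 : ∑ j ∈ Finset.range (d + 1), algebraMap L A (c j) * α ^ (d - j) * β ^ j =
        ∑ j ∈ ({0, d} : Finset ℕ), algebraMap L A (c j) * α ^ (d - j) * β ^ j := by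
      symm
      apply Finset.sum_subset
      · intro j hj
        simp only [Finset.mem_insert, Finset.mem_singleton] at hj
        rw [Finset.mem_range]
        omega
      · intro j hj hj0
        simp only [Finset.mem_insert, Finset.mem_singleton, not_or] at hj0
        rw [Finset.mem_range] at hj
        rw [hJ j (Finset.mem_Icc.2 ⟨by omega, by omega⟩), map_zero, zero_mul, zero_mul]
    rw [h1, Finset.sum_pair hd.ne, Nat.sub_zero, pow_zero, mul_one, Nat.sub_self, pow_zero, mul_one]
  have hc0 : c 0 = 0 := by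
    have h1 := hexp L 1 0
    rw [hsum] at h1
    simp only [one_mul, zero_mul, add_zero, one_pow, mul_one, Algebra.algebraMap_self, RingHom.id_apply,
      zero_pow hd.ne', mul_zero] at h1
    rw [← h1]
    exact hfx
  refine ⟨x2, c d, ?_, ?_⟩
  · obtain ⟨l0, hl0⟩ : ∃ j, x2 j ≠ 0 := by
      by_contra h
      push Not at h
      exact hx2 (funext h)
    refine li_of_minor (i := j0) (j := l0) ?_
    rw [hx20 j0 (by simp), mul_zero, sub_zero]
    exact mul_ne_zero hj0 hl0
  · have h1 := hexp (MvPolynomial (Fin 2) L) (X 0) (X 1)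
    rw [hsum, hc0, map_zero, zero_mul, zero_add] at h1
    exact h1

section

variable {K κ : Type} [Field K] [Infinite K] [Fintype κ]

/-- zero-cycles on a line of high contact -/
theorem compare (hR : T_R) (hCYC : T_CYC2) {d : ℕ} (hd : 0 < d) {G : MvPolynomial κ K}
    {E : Type} [Field E] [Algebra K E] (hE : IsFG 0 K E) {P w R : κ → E} {c : E}
    (hli : LinearIndependent E ![P, w])
    (hid : aeval (fun i => X 0 * C (P i) + X 1 * C (w i)) G = (C c * X 1 ^ d : MvPolynomial (Fin 2) E))
    (hRm : R ∈ Submodule.span E {P, w}) (hR0 : R ≠ 0) (hGR : aeval R G = 0) :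
    cyc K R - cyc K P ∈ Rat K 0 G := by
  rw [Submodule.mem_span_pair] at hRm
  obtain ⟨x, y, hxy⟩ := hRm
  have h1 := ident_eval hid E x y
  simp only [Algebra.algebraMap_self, RingHom.id_apply] at h1
  have h2 : (fun i => x * P i + y * w i) = R := by
    rw [← hxy]
    rfl
  rw [h2, hGR] at h1
  by_cases hy : y = 0
  · have hx : x ≠ 0 := by
      rintro rfl
      apply hR0
      rw [← hxy, hy, zero_smul, zero_smul, add_zero]
    have h3 : R = fun i => x * P i := by
      rw [← h2, hy]
      funext i
      ring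
    rw [h3, (hCYC K κ E).1 P x hx, sub_self]
    exact zero_mem _
  · have hc : c = 0 := by
      rcases mul_eq_zero.1 h1.symm with h3 | h3
      · exact h3
      · exact absurd (pow_eq_zero_iff hd.ne' |>.1 h3) hy
    have hV : Vanish G P w := by
      intro M _ _ _ _ α β
      rw [ident_eval hid M, hc, map_zero, zero_mul]
    have hli2 : LinearIndependent E ![R, P] := by
      rw [li_iff]
      intro α β h0
      have h3 := (li_iff.1 hli) (α * x + β) (α * y) (by
        rw [← h0, ← hxy]
        module)
      have hα : α = 0 := (mul_eq_zero.1 h3.2).resolve_right hy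
      refine ⟨hα, ?_⟩
      have h4 := h3.1
      rwa [hα, zero_mul, zero_add] at h4
    have hV2 : Vanish G R P := Vanish.span hV (by
      rw [Submodule.mem_span_pair]
      exact ⟨x, y, hxy⟩) (Submodule.subset_span (by simp))
    obtain ⟨T, m, a, b, -, hT, hrat⟩ := hR K κ E 0 hE G R P hli2 hV2
    have hT0 : T = ∅ := by
      rw [Finset.eq_empty_iff_forall_notMem]
      intro t ht
      have h3 := hT t ht
      rw [Nat.cast_zero] at h3
      exact absurd h3 (by
        rw [← Cardinal.succ_zero]
        simp)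
    rw [hT0, Finset.sum_empty, add_zero] at hrat
    exact hrat

omit [Infinite K] [Fintype κ] in
theorem red_aeval {E : Type} [Field E] [Algebra K E] {t : Place K E} {B : κ → E} (hB : ∀ i, t.Reg (B i))
    (f : MvPolynomial κ K) : t.Reg (aeval B f) ∧ t.red (aeval B f) = aeval (fun i => t.red (B i)) f := by
  induction f using MvPolynomial.induction_on with
  | C a =>
    rw [aeval_C, aeval_C]
    exact ⟨t.reg_const _, rfl⟩
  | add p q hp hq =>
    rw [map_add, map_add, t.red_add hp.1 hq.1, hp.2, hq.2]
    exact ⟨t.reg_add hp.1 hq.1, rfl⟩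
  | mul_X p i hp =>
    rw [map_mul, map_mul, aeval_X, aeval_X, t.red_mul hp.1 (hB i), hp.2]
    exact ⟨t.reg_mul hp.1 (hB i), rfl⟩

/-- the reduction of a point on a family of lines -/
theorem compare_red (hR : T_R) (hCYC : T_CYC2) {d : ℕ} (hd : 0 < d) {G : MvPolynomial κ K}
    (hG : G.IsHomogeneous d) {M : Type} [Field M] [Algebra K M] {v : Place K M} (hE : IsFG 0 K v.RF)
    {A B : κ → M} {a b : κ → v.RF} {c : v.RF} (hlim : IsLim v A B a b)
    (hid : aeval (fun i => X 0 * C (a i) + X 1 * C (b i)) G = (C c * X 1 ^ d : MvPolynomial (Fin 2) v.RF))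
    {α β : M} (hGe : aeval (fun i => α * A i + β * B i) G = 0) {R : κ → v.RF}
    (hRed : IsRed v (fun i => α * A i + β * B i) R) : cyc K R - cyc K a ∈ Rat K 0 G := by
  obtain ⟨hR0, c', hc', hR'⟩ := hRed
  refine compare hR hCYC hd hE hlim.1 hid ?_ hR0 ?_
  · refine lim_mem (c := c' * α) (c' := c' * β) hlim (fun i => ?_)
    have h1 : c' * α * A i + c' * β * B i = c' * (α * A i + β * B i) := by ring
    rw [h1]
    exact hR' i
  · have h1 := (red_aeval (fun i => (hR' i).1) G).2
    rw [aeval_smul hG, hGe, mul_zero, v.red_zero] at h1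
    have h2 : (fun i => v.red (c' * (α * A i + β * B i))) = R := funext fun i => (hR' i).2
    rw [h2] at h1
    exact h1.symm

omit [Infinite K] [Fintype κ] in
/-- a point on a pencil of lines -/
theorem exists_point {E : Type} [Field E] [Algebra K E] [FiniteDimensional K E] {d : ℕ} (hd : 0 < d)
    {G : MvPolynomial κ K} (hG : G.IsHomogeneous d) {p0 q0 : κ → E} (p1 q1 : κ → E)
    (hpq : LinearIndependent E ![p0, q0]) :
    ∃ (M : Type) (_ : Field M) (_ : Algebra E M) (_ : Algebra K M) (_ : IsScalarTower K E M) (τ α β : M),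
      IsFG 1 K M ∧ Transcendental E τ ∧
      aeval (fun i => α * (algebraMap E M (p0 i) + τ * algebraMap E M (p1 i)) +
        β * (algebraMap E M (q0 i) + τ * algebraMap E M (q1 i))) G = 0 ∧
      (fun i => α * (algebraMap E M (p0 i) + τ * algebraMap E M (p1 i)) +
        β * (algebraMap E M (q0 i) + τ * algebraMap E M (q1 i))) ≠ 0 := by
  classical
  set L := AlgebraicClosure (RatFunc E) with hL
  set t : L := algebraMap (RatFunc E) L RatFunc.X with ht
  set H : MvPolynomial (Fin 2) L := aeval (fun i => X 0 * C (algebraMap E L (p0 i) +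
    t * algebraMap E L (p1 i)) + X 1 * C (algebraMap E L (q0 i) + t * algebraMap E L (q1 i))) G with hH
  have hHh : H.IsHomogeneous d := by
    have h1 := hG.aeval (fun i => (X 0 * C (algebraMap E L (p0 i) +
      t * algebraMap E L (p1 i)) + X 1 * C (algebraMap E L (q0 i) + t * algebraMap E L (q1 i)) :
      MvPolynomial (Fin 2) L)) (n := 1) (fun i => by
      refine IsHomogeneous.add ?_ ?_
      · exact (isHomogeneous_X _ _).mul (isHomogeneous_C _ _)
      · exact (isHomogeneous_X _ _).mul (isHomogeneous_C _ _))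
    rwa [one_mul] at h1
  obtain ⟨c, hc0, hc⟩ := Pool.Agent.Z15P.T2h69.H15.common_zero' (I := Fin 2) (J := Unit) (L := L) (by simp)
    (fun _ => H) (fun _ => d) (fun _ => hd) (fun _ => hHh)
  have hc := hc ()
  have hE : FiniteDimensional (RatFunc E) (IntermediateField.adjoin (RatFunc E) (Set.range c)) :=
    IntermediateField.finiteDimensional_adjoin (fun x _ =>
      (AlgebraicClosure.isAlgebraic (RatFunc E)).isIntegral.isIntegral x)
  set M := IntermediateField.adjoin (RatFunc E) (Set.range c) with hMdef
  have hmem : ∀ i, c i ∈ M := fun i => IntermediateField.subset_adjoin _ _ ⟨i, rfl⟩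
  have s1 : IsScalarTower K (RatFunc E) M := inferInstance
  have s2 : IsScalarTower E (RatFunc E) M := inferInstance
  have s3 : IsScalarTower K E M := IsScalarTower.of_algebraMap_eq fun a => by
    rw [IsScalarTower.algebraMap_apply K (RatFunc E) M, IsScalarTower.algebraMap_apply E (RatFunc E) M,
      ← IsScalarTower.algebraMap_apply K E (RatFunc E)]
  have s4 : IsScalarTower E M L := IsScalarTower.of_algebraMap_eq (fun x => rfl)
  have s5 : IsScalarTower K M L := IsScalarTower.of_algebraMap_eq (fun x => rfl)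
  have hess : Algebra.EssFiniteType K M := by
    have h1 : Algebra.EssFiniteType E (RatFunc E) := (Pool.Agent.Z15P.T2h69.H15.isFF_ratFunc E).ess
    have h2 : Algebra.EssFiniteType K (RatFunc E) := Algebra.EssFiniteType.comp K E (RatFunc E)
    exact Algebra.EssFiniteType.comp K (RatFunc E) M
  have htr : Algebra.trdeg K M = (1 : ℕ) := by
    have h1 : Algebra.trdeg E (RatFunc E) = 1 := (Pool.Agent.Z15P.T2h69.H15.isFF_ratFunc E).trdeg
    have h2 : Algebra.trdeg K E + Algebra.trdeg E (RatFunc E) = Algebra.trdeg K (RatFunc E) :=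
      trdeg_add_eq K E
    have h3 : Algebra.trdeg K (RatFunc E) + Algebra.trdeg (RatFunc E) M = Algebra.trdeg K M :=
      trdeg_add_eq K (RatFunc E)
    rw [← h3, ← h2, h1, trdeg_eq_zero, trdeg_eq_zero, zero_add, add_zero, Nat.cast_one]
  have hτ : Transcendental E (algebraMap (RatFunc E) M RatFunc.X) := by
    intro h
    exact RatFunc.transcendental_X (K := E) ((isAlgebraic_algebraMap_iff
      (algebraMap (RatFunc E) M).injective).1 h)
  have hne : (⟨c 0, hmem 0⟩ : M) ≠ 0 ∨ (⟨c 1, hmem 1⟩ : M) ≠ 0 := by
    by_contra h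
    push Not at h
    apply hc0
    funext i
    fin_cases i
    · exact congrArg Subtype.val h.1
    · exact congrArg Subtype.val h.2
  refine ⟨M, inferInstance, inferInstance, inferInstance, s3, algebraMap (RatFunc E) M RatFunc.X,
    ⟨c 0, hmem 0⟩, ⟨c 1, hmem 1⟩, ⟨hess, htr⟩, hτ, ?_, Pool.Agent.Z15P.T2h69.H15.pencil_ne p1 q1 hpq hτ hne⟩
  apply (algebraMap M L).injective
  rw [map_zero, ← hc, hH, ← aeval_algebraMap_apply]
  have h5 : (eval c : MvPolynomial (Fin 2) L →+* L) (aeval (fun i => X 0 * C (algebraMap E L (p0 i) +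
    t * algebraMap E L (p1 i)) + X 1 * C (algebraMap E L (q0 i) + t * algebraMap E L (q1 i))) G) =
    aeval (fun i => (eval c : MvPolynomial (Fin 2) L →+* L) (X 0 * C (algebraMap E L (p0 i) +
    t * algebraMap E L (p1 i)) + X 1 * C (algebraMap E L (q0 i) + t * algebraMap E L (q1 i)))) G := by
    rw [aeval_def, aeval_def, hom_eval₂]
    congr 1
    ext z
    have h6 : algebraMap K (MvPolynomial (Fin 2) L) z = C (algebraMap K L z) := rfl
    rw [RingHom.comp_apply, h6, eval_C]
  rw [h5]
  congr 2
  funext i
  simp only [Function.comp, map_add, map_mul, eval_X, eval_C]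
  rfl

end

section

variable {K E M : Type} [Field K] [Field E] [Field M] [Algebra K E] [Algebra K M] [Algebra E M]
  [IsScalarTower K E M] [Algebra.IsAlgebraic K E] (v : Place K M)

include K in
theorem reg_alg (x : E) : v.Reg (algebraMap E M x) := by
  by_cases hx : x = 0
  · rw [hx, map_zero]
    exact v.reg_zero
  · refine Or.inr (v.ord_eq_zero_of_isAlgebraic ?_ ?_).ge
    · exact (map_ne_zero_iff _ (algebraMap E M).injective).2 hx
    · exact (Algebra.IsAlgebraic.isAlgebraic (R := K) x).algebraMap

/-- the residue field at a place which is trivial on `E` -/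
@[reducible] noncomputable def constAlg : Algebra E v.RF := RingHom.toAlgebra
  { toFun := fun x => v.red (algebraMap E M x)
    map_one' := by rw [map_one, v.red_one]
    map_mul' := fun a b => by rw [map_mul, v.red_mul (reg_alg v a) (reg_alg v b)]
    map_zero' := by rw [map_zero, v.red_zero]
    map_add' := fun a b => by rw [map_add, v.red_add (reg_alg v a) (reg_alg v b)] }

end

section

variable {K κ : Type} [Field K] [Infinite K] [Fintype κ]

theorem pen (hR : T_R) (hCYC : T_CYC2) {d : ℕ} (hd : 0 < d) (hκ : d + 1 ≤ Fintype.card κ)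
    {G : MvPolynomial κ K} (hG : G.IsHomogeneous d) {E : Type} [Field E] [Algebra K E]
    [FiniteDimensional K E] {P : κ → E} (hP : P ≠ 0) (hGP : aeval P G = 0) {p : κ → K} (hp : p ≠ 0)
    (hGp : aeval p G = 0) : ∃ N : ℕ, 0 < N ∧ ∃ m : ℤ, N • cyc K P - m • cyc K p ∈ Rat K 0 G := by
  classical
  obtain ⟨w, c, hli, hid⟩ := exists_dir (k := K) (L := AlgebraicClosure E) hd hκ hG
    (x := fun i => algebraMap E (AlgebraicClosure E) (P i)) (by
      intro h0
      apply hP
      funext i
      exact (map_eq_zero _).1 (congrFun h0 i)) (by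
      have h1 : aeval (fun i => algebraMap E (AlgebraicClosure E) (P i)) G =
          algebraMap E (AlgebraicClosure E) (aeval P G) :=
        (comp_aeval_apply _ (IsScalarTower.toAlgHom K E (AlgebraicClosure E)) G).symm
      rw [h1, hGP, map_zero])
  obtain ⟨w', c', hli', hid'⟩ := exists_dir (k := K) (L := AlgebraicClosure E) hd hκ hG
    (x := fun i => algebraMap K (AlgebraicClosure E) (p i)) (by
      intro h0
      apply hp
      funext i
      exact (map_eq_zero _).1 (congrFun h0 i)) (by
      have h1 : aeval (fun i => algebraMap K (AlgebraicClosure E) (p i)) G =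
          algebraMap K (AlgebraicClosure E) (aeval p G) :=
        (comp_aeval_apply _ (IsScalarTower.toAlgHom K K (AlgebraicClosure E)) G).symm
      rw [h1, hGp, map_zero])
  -- the field of definition
  let S : Set (AlgebraicClosure E) := Set.range w ∪ Set.range w'
  have hSfin : S.Finite := (Set.finite_range w).union (Set.finite_range w')
  let E2 : IntermediateField E (AlgebraicClosure E) := IntermediateField.adjoin E S
  have hfin : FiniteDimensional E E2 := by
    have := hSfin.to_subtype
    apply IntermediateField.finiteDimensional_adjoin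
    intro x _
    exact (Algebra.IsAlgebraic.isAlgebraic x).isIntegral
  have t1 : IsScalarTower K E E2 := IsScalarTower.of_algebraMap_eq fun _ => rfl
  have t2 : IsScalarTower K E2 (AlgebraicClosure E) := IsScalarTower.of_algebraMap_eq fun _ => rfl
  have hfin2 : FiniteDimensional K E2 := FiniteDimensional.trans K E E2
  have halg : Algebra.IsAlgebraic K E2 := inferInstance
  let w2 : κ → E2 := fun a => ⟨w a, IntermediateField.subset_adjoin _ _ (Or.inl ⟨a, rfl⟩)⟩
  let w2' : κ → E2 := fun a => ⟨w' a, IntermediateField.subset_adjoin _ _ (Or.inr ⟨a, rfl⟩)⟩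
  let P2 : κ → E2 := fun a => algebraMap E E2 (P a)
  let p2 : κ → E2 := fun a => algebraMap K E2 (p a)
  have hinj : Function.Injective (algebraMap E2 (AlgebraicClosure E)) :=
    (algebraMap E2 (AlgebraicClosure E)).injective
  have hdesc : ∀ {P w : κ → E2} {c : AlgebraicClosure E},
      aeval (fun i => X 0 * C (algebraMap E2 (AlgebraicClosure E) (P i)) +
        X 1 * C (algebraMap E2 (AlgebraicClosure E) (w i))) G =
        (C c * X 1 ^ d : MvPolynomial (Fin 2) (AlgebraicClosure E)) →
      aeval (fun i => X 0 * C (P i) + X 1 * C (w i)) G =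
        (C (aeval w G) * X 1 ^ d : MvPolynomial (Fin 2) E2) := by
    intro P w c h
    have h1 := ident_eval h (AlgebraicClosure E) 0 1
    simp only [zero_mul, one_mul, zero_add, one_pow, mul_one, Algebra.algebraMap_self, RingHom.id_apply] at h1
    have h2 : aeval (fun i => algebraMap E2 (AlgebraicClosure E) (w i)) G =
          algebraMap E2 (AlgebraicClosure E) (aeval w G) :=
        (comp_aeval_apply _ (IsScalarTower.toAlgHom K E2 (AlgebraicClosure E)) G).symm
    rw [h2] at h1
    rw [← h1] at h
    exact ident_desc h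
  have hdesc_li : ∀ {P w : κ → E2}, LinearIndependent (AlgebraicClosure E)
      ![fun i => algebraMap E2 (AlgebraicClosure E) (P i), fun i => algebraMap E2 (AlgebraicClosure E) (w i)] →
      LinearIndependent E2 ![P, w] := by
    intro P w h
    obtain ⟨i, j, hij⟩ := exists_minor h
    refine li_of_minor (i := i) (j := j) ?_
    intro h0
    apply hij
    have h1 := congrArg (algebraMap E2 (AlgebraicClosure E)) h0
    rw [map_zero] at h1
    rw [← h1]
    simp only [map_sub, map_mul]
  have hid2 := hdesc (P := P2) (w := w2) (c := c) hid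
  have hid2' := hdesc (P := p2) (w := w2') (c := c') hid'
  have hli2 : LinearIndependent E2 ![P2, w2] := hdesc_li hli
  have hli2' : LinearIndependent E2 ![p2, w2'] := hdesc_li hli'
  -- a point on the pencil
  obtain ⟨M, _, _, _, _, τ, α, β, hM, hτ, hGe, he⟩ := exists_point (K := K) hd hG p2 w2' hli2
  have hFF : IsFF K M := ⟨hM.1, by rw [hM.2, Nat.cast_one]⟩
  have hτK : Transcendental K τ := fun h => hτ (h.tower_top E2)
  have hτ0 : τ ≠ 0 := by
    rintro rfl
    exact hτK isAlgebraic_zero
  obtain ⟨A, hA⟩ : ∃ A : κ → M, A = fun i => algebraMap E2 M (P2 i) + τ * algebraMap E2 M (p2 i) := ⟨_, rfl⟩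
  obtain ⟨B, hB⟩ : ∃ B : κ → M, B = fun i => algebraMap E2 M (w2 i) + τ * algebraMap E2 M (w2' i) := ⟨_, rfl⟩
  have hGe' : aeval (fun i => α * A i + β * B i) G = 0 := by rw [hA, hB]; exact hGe
  have he' : (fun i => α * A i + β * B i) ≠ 0 := by rw [hA, hB]; exact he
  -- the reductions
  have hex : ∀ v : Place K M, ∃ R : κ → v.RF, IsRed v (fun i => α * A i + β * B i) R := by
    intro v
    obtain ⟨j, hj, hr⟩ := exists_prim v he'
    refine ⟨_, ?_, (α * A j + β * B j)⁻¹, inv_ne_zero hj, fun i => ⟨hr i, rfl⟩⟩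
    intro h0
    have h1 := congrFun h0 j
    simp only [inv_mul_cancel₀ hj, v.red_one, Pi.zero_apply] at h1
    exact one_ne_zero h1
  choose R hRed using hex
  have hRF : ∀ v : Place K M, IsFG 0 K v.RF := fun v => by
    have h1 : FiniteDimensional K v.RF := inferInstance
    have h2 : Algebra.IsAlgebraic K v.RF := inferInstance
    exact ⟨inferInstance, by rw [trdeg_eq_zero, Nat.cast_zero]⟩
  have hmain : ∀ v : Place K M, ∃ n : ℕ, 0 < n ∧
      (0 < v.ord τ → cyc K (R v) - n • cyc K P ∈ Rat K 0 G) ∧
      (v.ord τ < 0 → cyc K (R v) - n • cyc K p ∈ Rat K 0 G) := by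
    intro v
    let _ : Algebra E2 v.RF := constAlg v
    have u1 : IsScalarTower K E2 v.RF := IsScalarTower.of_algebraMap_eq fun a => by
      change _ = v.red (algebraMap E2 M (algebraMap K E2 a))
      rw [← IsScalarTower.algebraMap_apply K E2 M]
      rfl
    have hres : ∀ x : E2, v.red (algebraMap E2 M x) = algebraMap E2 v.RF x := fun _ => rfl
    have u2 : FiniteDimensional E2 v.RF := FiniteDimensional.right K E2 v.RF
    rcases lt_trichotomy (v.ord τ) 0 with h | h | h
    · refine ⟨Module.finrank K v.RF, Module.finrank_pos, fun h' => absurd h' (by omega), fun _ => ?_⟩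
      have hτi : v.Reg τ⁻¹ := Or.inr (by rw [v.ord_inv]; omega)
      have hτi0 : v.red τ⁻¹ = 0 := (v.red_eq_zero_iff hτi).2 (Or.inr (by rw [v.ord_inv]; omega))
      have hlim : IsLim v A B (fun i => algebraMap E2 v.RF (p2 i)) (fun i => algebraMap E2 v.RF (w2' i)) := by
        refine ⟨li_map _ hli2', τ⁻¹, 0, 0, τ⁻¹, ?_, fun i => ?_, fun i => ?_⟩
        · rw [zero_mul, sub_zero]
          exact mul_ne_zero (inv_ne_zero hτ0) (inv_ne_zero hτ0)
        · have h1 : τ⁻¹ * A i + 0 * B i = τ⁻¹ * algebraMap E2 M (P2 i) + algebraMap E2 M (p2 i) := by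
            rw [hA]
            field_simp
            ring
          rw [h1, v.red_add (v.reg_mul hτi (reg_alg v _)) (reg_alg v _), v.red_mul hτi (reg_alg v _), hτi0,
            zero_mul, zero_add]
          exact ⟨v.reg_add (v.reg_mul hτi (reg_alg v _)) (reg_alg v _), rfl⟩
        · have h1 : 0 * A i + τ⁻¹ * B i = τ⁻¹ * algebraMap E2 M (w2 i) + algebraMap E2 M (w2' i) := by
            rw [hB]
            field_simp
            ring
          rw [h1, v.red_add (v.reg_mul hτi (reg_alg v _)) (reg_alg v _), v.red_mul hτi (reg_alg v _), hτi0,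
            zero_mul, zero_add]
          exact ⟨v.reg_add (v.reg_mul hτi (reg_alg v _)) (reg_alg v _), rfl⟩
      have h1 := compare_red hR hCYC hd hG (hRF v) hlim (ident_ext hid2') hGe' (hRed v)
      have h2 : cyc K (fun i => algebraMap E2 v.RF (p2 i)) = Module.finrank K v.RF • cyc K p := by
        rw [← (hCYC K κ K).2.2.1 v.RF p]
        congr 1
        funext i
        exact (IsScalarTower.algebraMap_apply K E2 v.RF (p i)).symm
      rwa [h2] at h1
    · exact ⟨1, one_pos, fun h' => absurd h' (by omega), fun h' => absurd h' (by omega)⟩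
    · refine ⟨Module.finrank E2 v.RF * Module.finrank E E2, Nat.mul_pos Module.finrank_pos Module.finrank_pos,
        fun _ => ?_, fun h' => absurd h' (by omega)⟩
      have hτi : v.Reg τ := Or.inr (by omega)
      have hτi0 : v.red τ = 0 := (v.red_eq_zero_iff hτi).2 (Or.inr (by omega))
      have hlim : IsLim v A B (fun i => algebraMap E2 v.RF (P2 i)) (fun i => algebraMap E2 v.RF (w2 i)) := by
        refine ⟨li_map _ hli2, 1, 0, 0, 1, ?_, fun i => ?_, fun i => ?_⟩
        · rw [zero_mul, sub_zero, mul_one]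
          exact one_ne_zero
        · have h1 : 1 * A i + 0 * B i = algebraMap E2 M (P2 i) + τ * algebraMap E2 M (p2 i) := by
            rw [hA]
            ring
          rw [h1, v.red_add (reg_alg v _) (v.reg_mul hτi (reg_alg v _)), v.red_mul hτi (reg_alg v _), hτi0,
            zero_mul, add_zero]
          exact ⟨v.reg_add (reg_alg v _) (v.reg_mul hτi (reg_alg v _)), rfl⟩
        · have h1 : 0 * A i + 1 * B i = algebraMap E2 M (w2 i) + τ * algebraMap E2 M (w2' i) := by
            rw [hB]
            ring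
          rw [h1, v.red_add (reg_alg v _) (v.reg_mul hτi (reg_alg v _)), v.red_mul hτi (reg_alg v _), hτi0,
            zero_mul, add_zero]
          exact ⟨v.reg_add (reg_alg v _) (v.reg_mul hτi (reg_alg v _)), rfl⟩
      have h1 := compare_red hR hCYC hd hG (hRF v) hlim (ident_ext hid2) hGe' (hRed v)
      have h2 : cyc K (fun i => algebraMap E2 v.RF (P2 i)) =
          (Module.finrank E2 v.RF * Module.finrank E E2) • cyc K P := by
        rw [(hCYC K κ E2).2.2.1 v.RF P2, (hCYC K κ E).2.2.1 E2 P, mul_smul]
      rwa [h2] at h1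
  choose n hn0 hnpos hnneg using hmain
  -- the divisor of `τ`
  have hfs : {v : Place K M | v.ord τ ≠ 0 ∧ cyc K (R v) ≠ 0}.Finite :=
    (finite_support (k := K) τ).subset fun v hv => hv.1
  set T := hfs.toFinset with hT
  have hTm : ∀ v, v ∈ T ↔ v.ord τ ≠ 0 ∧ cyc K (R v) ≠ 0 := fun v => by
    rw [hT, Set.Finite.mem_toFinset, Set.mem_ofPred_eq]
  have hD : ∑ v ∈ T, v.ord τ • cyc K (R v) ∈ Rat K 0 G := by
    refine AddSubgroup.subset_closure ⟨M, inferInstance, inferInstance, fun i => α * A i + β * B i, τ, hM,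
      he', hGe', hτ0, T, R, hRed, fun v => ?_, rfl⟩
    rw [hTm]
    have h1 := (hRF v).2
    constructor
    · exact fun h => ⟨h1, h⟩
    · exact fun h => h.2
  -- the sum
  have hsum : ∑ v ∈ T, v.ord τ • (cyc K (R v) - (if 0 < v.ord τ then n v • cyc K P else n v • cyc K p)) ∈
      Rat K 0 G := by
    refine sum_mem fun v hv => zsmul_mem ?_ _
    rw [hTm] at hv
    split_ifs with h
    · exact hnpos v h
    · exact hnneg v (by have := hv.1; omega)
  have hsum2 : ∑ v ∈ T, v.ord τ • (if 0 < v.ord τ then n v • cyc K P else n v • cyc K p) ∈ Rat K 0 G := by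
    have h1 := sub_mem hD hsum
    rw [← Finset.sum_sub_distrib] at h1
    have h2 : ∀ v ∈ T, v.ord τ • cyc K (R v) -
        v.ord τ • (cyc K (R v) - (if 0 < v.ord τ then n v • cyc K P else n v • cyc K p)) =
        v.ord τ • (if 0 < v.ord τ then n v • cyc K P else n v • cyc K p) := by
      intro v _
      rw [smul_sub]
      abel
    rwa [Finset.sum_congr rfl h2] at h1
  have hsplit : ∑ v ∈ T, v.ord τ • (if 0 < v.ord τ then n v • cyc K P else n v • cyc K p) =
      (∑ v ∈ T.filter (fun v => 0 < v.ord τ), v.ord τ * n v) • cyc K P +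
      (∑ v ∈ T.filter (fun v => ¬ 0 < v.ord τ), v.ord τ * n v) • cyc K p := by
    rw [← Finset.sum_filter_add_sum_filter_not T (fun v => 0 < v.ord τ), Finset.sum_smul, Finset.sum_smul]
    congr 1
    · refine Finset.sum_congr rfl fun v hv => ?_
      rw [if_pos (Finset.mem_filter.1 hv).2, mul_smul, natCast_zsmul]
    · refine Finset.sum_congr rfl fun v hv => ?_
      rw [if_neg (Finset.mem_filter.1 hv).2, mul_smul, natCast_zsmul]
  rw [hsplit] at hsum2
  -- positivity
  have hpos : 0 < ∑ v ∈ T.filter (fun v => 0 < v.ord τ), v.ord τ * n v := by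
    obtain ⟨Z, hZ, -, hZ3⟩ := zeros (k := K) (f := τ) hτK
    have hne : Z.Nonempty := by
      by_contra hne
      rw [Finset.not_nonempty_iff_eq_empty] at hne
      rw [hne, Finset.sum_empty] at hZ3
      have := IsFF.finite (k := K) hτK
      have h1 : 0 < Module.finrank (IntermediateField.adjoin K {τ}) M := Module.finrank_pos
      omega
    obtain ⟨v0, hv0⟩ := hne
    rw [hZ] at hv0
    have hcyc : cyc K (R v0) ≠ 0 := by
      unfold cyc
      rw [Ne, Finsupp.single_eq_zero]
      have h1 : FiniteDimensional (ratioField K (R v0)) v0.RF := FiniteDimensional.right K _ v0.RF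
      have h2 : 0 < Module.finrank (ratioField K (R v0)) v0.RF := Module.finrank_pos
      omega
    have hmem : v0 ∈ T.filter (fun v => 0 < v.ord τ) := by
      rw [Finset.mem_filter, hTm]
      exact ⟨⟨by omega, hcyc⟩, hv0⟩
    refine Finset.sum_pos (fun v hv => ?_) ⟨v0, hmem⟩
    have h1 := (Finset.mem_filter.1 hv).2
    have h2 := hn0 v
    positivity
  obtain ⟨N, hN⟩ := Int.eq_ofNat_of_zero_le hpos.le
  refine ⟨N, by omega, -(∑ v ∈ T.filter (fun v => ¬ 0 < v.ord τ), v.ord τ * n v), ?_⟩
  rw [neg_smul, sub_neg_eq_add, ← natCast_zsmul, ← hN]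
  exact hsum2

end

/-- PEN -/
theorem t_J_PENi : T_PENi := by
  intro hR hCYC k _ _ _ κ _ d hd hκ g hg fl hfl hgfl K _ _ l hl E _ _ P htr hP hgP
  obtain rfl : l = 0 := by omega
  have hcharK : Infinite K := Infinite.of_injective _ (algebraMap k K).injective
  by_cases hc0 : cyc K P = 0
  · rw [hc0]; exact zero_mem _
  have hess := ((hCYC K κ E).2.2.2.1 P hc0).1
  have halg : Algebra.IsAlgebraic K E := by
    rw [← trdeg_eq_zero_iff, htr, Nat.cast_zero]
  have hfin : FiniteDimensional K E := by
    have h1 := (IntermediateField.fg_top_iff (F := K) (E := E)).2 hess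
    obtain ⟨s, hs⟩ := h1
    have h2 : FiniteDimensional K (IntermediateField.adjoin K (s : Set E)) :=
      IntermediateField.finiteDimensional_adjoin (fun x _ => (halg.isAlgebraic x).isIntegral)
    rw [hs] at h2
    exact (IntermediateField.topEquiv (F := K) (E := E)).toLinearEquiv.finiteDimensional
  obtain ⟨N, hN, m, h⟩ := pen (K := K) hR hCYC hd hκ (hg.map (algebraMap k K)) hP hgP
    (p := fun i => algebraMap k K (fl 0 i)) (by
      intro h0
      apply hfl
      funext i
      exact (map_eq_zero _).1 (congrFun h0 i)) (by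
      rw [aeval_map_algebraMap]
      have h1 : aeval (fun i => algebraMap k K (fl 0 i)) g = algebraMap k K (eval (fl 0) g) := by
        rw [← MvPolynomial.coe_aeval_eq_eval]
        exact (comp_aeval_apply _ (IsScalarTower.toAlgHom k k K) g).symm
      rw [h1, hgfl, map_zero])
  refine ⟨N, hN, m, ?_⟩
  have h2 := Pool.Agent.Z15P.T2h99.J.t_LIN K κ K 0 Fin.elim0 (fun i j => algebraMap k K (fl i j))
    (algebraicIndependent_empty_type) (by
      apply top_unique
      intro x _
      exact IntermediateField.algebraMap_mem _ x) (by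
      rw [Fintype.linearIndependent_iff]
      intro c hc i
      obtain rfl : i = 0 := by ext; omega
      rw [Fin.sum_univ_succ, Finset.univ_eq_empty, Finset.sum_empty, add_zero] at hc
      rcases smul_eq_zero.1 hc with h0 | h0
      · exact h0
      · exfalso
        apply hfl
        funext i
        exact (map_eq_zero (algebraMap k K)).1 (congrFun h0 i))
  have h3 : (fun i => algebraMap K K (algebraMap k K (fl 0 i)) +
      ∑ j : Fin 0, (Fin.elim0 j : K) * algebraMap K K (algebraMap k K (fl (j + 1) i))) =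
      fun i => algebraMap k K (fl 0 i) := by
    funext i
    simp
  rw [h3] at h2
  rw [← h2]
  exact h

end Pool.Agent.Z15P.T2h62.J15
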