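import Pool.Agent.Z15P.T2h62.J15.LIM2
import Pool.Agent.Z15P.T2h62.H15.TBi
import Pool.Agent.Z15P.T2h69.H15.Exp

/-!
Every cycle on `f(x) + G(y) = 0` is equivalent up to torsion to a sum of families of lines through points
`(z, 0)`.
-/

set_option autoImplicit false

open FF FF.PP MvPolynomial Pool.Agent.Z15P.Z15.H Pool.Agent.Z15P.Z15.J Pool.Agent.Z15P.Z15.J.Stm

namespace Pool.Agent.Z15P.T2h62.J15

open Pool.Agent.Z15P.T2h62.H15 (reg_sub exists_prim li_iff li_of_minor exists_minor exp_descend)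

/-! ### Linear algebra -/

section Lin

variable {κ : Type} [Field κ] {ι : Type}

/-- a nonzero vector of a plane is part of a basis -/
theorem exists_second {a b w : ι → κ} (hli : LinearIndependent κ ![a, b]) (hw : w ≠ 0) :
    ∃ v, v ∈ Submodule.span κ {a, b} ∧ LinearIndependent κ ![w, v] := by
  obtain ⟨j, hj⟩ : ∃ j, w j ≠ 0 := by
    by_contra h
    push Not at h
    exact hw (funext h)
  have ha : a ∈ Submodule.span κ {a, b} := Submodule.subset_span (by simp)
  have hb : b ∈ Submodule.span κ {a, b} := Submodule.subset_span (by simp)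
  by_cases h1 : LinearIndependent κ ![w, a]
  · exact ⟨a, ha, h1⟩
  by_cases h2 : LinearIndependent κ ![w, b]
  · exact ⟨b, hb, h2⟩
  exfalso
  have e1 : ∀ v : ι → κ, ¬ LinearIndependent κ ![w, v] → v = (v j / w j) • w := by
    intro v hv
    by_contra hne
    apply hv
    rw [li_iff]
    intro α β h0
    by_cases hβ : β = 0
    · subst hβ
      rw [zero_smul, add_zero] at h0
      have := congrFun h0 j
      rw [Pi.smul_apply, smul_eq_mul, Pi.zero_apply] at this
      exact ⟨(mul_eq_zero.1 this).resolve_right hj, rfl⟩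
    · exfalso
      apply hne
      have h3 := congrFun h0 j
      rw [Pi.add_apply, Pi.smul_apply, smul_eq_mul, Pi.smul_apply, smul_eq_mul,
        Pi.zero_apply] at h3
      funext i
      have h5 := congrFun h0 i
      rw [Pi.add_apply, Pi.smul_apply, Pi.smul_apply, smul_eq_mul, smul_eq_mul, Pi.zero_apply] at h5
      rw [Pi.smul_apply, smul_eq_mul]
      have h6 : β * (w j * v i - v j * w i) = 0 := by linear_combination w j * h5 - w i * h3
      have h7 : w j * v i - v j * w i = 0 := (mul_eq_zero.1 h6).resolve_left hβ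
      field_simp
      linear_combination h7
  have ea := e1 a h1
  have eb := e1 b h2
  have h3 := (li_iff.1 hli) (b j) (-(a j)) (by
    funext i
    have h4 := congrFun ea i
    have h5 := congrFun eb i
    simp only [Pi.smul_apply, smul_eq_mul] at h4 h5
    simp only [Pi.add_apply, Pi.smul_apply, smul_eq_mul, Pi.zero_apply]
    rw [h4, h5]
    field_simp
    ring)
  have h4 : a = 0 := by
    rw [ea, neg_eq_zero.1 h3.2, zero_div, zero_smul]
  exact one_ne_zero ((li_iff.1 hli) 1 0 (by rw [h4]; simp)).1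

end Lin

/-! ### `Vanish` -/

theorem Vanish.span {K : Type} [Field K] {ι : Type} {F : MvPolynomial ι K} {E : Type} [Field E]
    [Algebra K E] {a b a' b' : ι → E} (h : Vanish F a b) (ha : a' ∈ Submodule.span E {a, b})
    (hb : b' ∈ Submodule.span E {a, b}) : Vanish F a' b' := by
  intro M _ _ _ _ α β
  rw [Submodule.mem_span_pair] at ha hb
  obtain ⟨x, y, ha⟩ := ha
  obtain ⟨z, w, hb⟩ := hb
  have h1 := h M (α * algebraMap E M x + β * algebraMap E M z) (α * algebraMap E M y + β * algebraMap E M w)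
  rw [← h1]
  congr 2
  funext i
  rw [← ha, ← hb]
  simp only [Pi.add_apply, Pi.smul_apply, smul_eq_mul, map_add, map_mul]
  ring

/-! ### Coordinates -/

section jv

variable {ι κ ν A : Type}

theorem jv_inl (e : ι ≃ κ ⊕ ν) (z : κ → A) (y : ν → A) (a : κ) : jv e z y (e.symm (Sum.inl a)) = z a := by
  simp [jv]

theorem jv_inr (e : ι ≃ κ ⊕ ν) (z : κ → A) (y : ν → A) (b : ν) : jv e z y (e.symm (Sum.inr b)) = y b := by
  simp [jv]

theorem jv_eta (e : ι ≃ κ ⊕ ν) (v : ι → A) :
    jv e (fun a => v (e.symm (Sum.inl a))) (fun b => v (e.symm (Sum.inr b))) = v := by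
  funext i
  obtain ⟨x, rfl⟩ := e.symm.surjective i
  rcases x with a | b
  · rw [jv_inl]
  · rw [jv_inr]

theorem jv_comp {B : Type} (φ : A → B) (e : ι ≃ κ ⊕ ν) (z : κ → A) (y : ν → A) :
    (fun i => φ (jv e z y i)) = jv e (fun a => φ (z a)) (fun b => φ (y b)) := by
  funext i
  simp only [jv]
  rcases e i with a | b <;> rfl

theorem jv_comb [CommRing A] (e : ι ≃ κ ⊕ ν) (z z' : κ → A) (y y' : ν → A) (α β : A) :
    (fun i => α * jv e z y i + β * jv e z' y' i) =
      jv e (fun a => α * z a + β * z' a) (fun b => α * y b + β * y' b) := by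
  funext i
  simp only [jv]
  rcases e i with a | b <;> rfl

theorem jv_ne_zero [Zero A] (e : ι ≃ κ ⊕ ν) {z : κ → A} (hz : z ≠ 0) (y : ν → A) : jv e z y ≠ 0 := by
  intro h
  apply hz
  funext a
  rw [← jv_inl e z y a, h]
  rfl

theorem jv_ne_zero' [Zero A] (e : ι ≃ κ ⊕ ν) (z : κ → A) {y : ν → A} (hy : y ≠ 0) : jv e z y ≠ 0 := by
  intro h
  apply hy
  funext a
  rw [← jv_inr e z y a, h]
  rfl

end jv

/-- homogeneous forms are homogeneous functions -/
theorem aeval_smul {k ι : Type} [Field k] {R : Type} [CommRing R] [Algebra k R] {F : MvPolynomial ι k} {d : ℕ}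
    (hF : F.IsHomogeneous d) (c : R) (v : ι → R) : aeval (fun i => c * v i) F = c ^ d * aeval v F := by
  rw [aeval_def, aeval_def, eval₂_eq, eval₂_eq, Finset.mul_sum]
  refine Finset.sum_congr rfl fun m hm => ?_
  have h1 : m.degree = d := by
    rw [← hF (mem_support_iff.1 hm), Finsupp.degree_eq_weight_one]
    rfl
  have h2 : ∏ i ∈ m.support, (c * v i) ^ m i = c ^ d * ∏ i ∈ m.support, v i ^ m i := by
    simp only [mul_pow]
    rw [Finset.prod_mul_distrib, Finset.prod_pow_eq_pow_sum]
    congr 2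
  rw [h2]
  ring

/-! ### Limits of families of lines through `(z, 0)` -/

section

variable {K : Type} [Field K] {ι κ ν : Type}

/-- the limit of a family of lines which contains the point `(z, 0)` contains a point `(z0, 0)` -/
theorem lim_special [Finite κ] (e : ι ≃ κ ⊕ ν) {E : Type} [Field E] [Algebra K E] {t : Place K E}
    {A B : ι → E} {a b : ι → t.RF} (hlim : IsLim t A B a b) {z : κ → E} (hz : z ≠ 0) {c c' : E}
    (hc : ∀ i, c * A i + c' * B i = jv e z 0 i) :
    ∃ (z0 : κ → t.RF) (v : ι → t.RF), z0 ≠ 0 ∧ jv e z0 0 ∈ Submodule.span t.RF {a, b} ∧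
      v ∈ Submodule.span t.RF {a, b} ∧ LinearIndependent t.RF ![jv e z0 0, v] := by
  obtain ⟨j, hj, hr⟩ := exists_prim t hz
  have hz0 : (fun a => t.red ((z j)⁻¹ * z a)) ≠ 0 := by
    intro h
    have h1 := congrFun h j
    simp only [inv_mul_cancel₀ hj, t.red_one, Pi.zero_apply] at h1
    exact one_ne_zero h1
  have hmem : jv e (fun a => t.red ((z j)⁻¹ * z a)) 0 ∈ Submodule.span t.RF {a, b} := by
    refine lim_mem (c := (z j)⁻¹ * c) (c' := (z j)⁻¹ * c') hlim (fun i => ?_)
    have h1 : (z j)⁻¹ * c * A i + (z j)⁻¹ * c' * B i = (z j)⁻¹ * jv e z 0 i := by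
      rw [← hc i]
      ring
    rw [h1]
    simp only [jv]
    rcases e i with a | b
    · exact ⟨hr a, rfl⟩
    · simp only [Sum.elim_inr, Pi.zero_apply, mul_zero]
      exact ⟨t.reg_zero, t.red_zero⟩
  obtain ⟨v, hv, hwv⟩ := exists_second hlim.1 (jv_ne_zero e hz0 0)
  exact ⟨_, v, hz0, hmem, hv, hwv⟩

end

/-- SB -/
theorem t_J_SBi : T_SBi := by
  intro hR hCYC hLIM k _ _ _ ι κ ν _ _ _ d hd hκ e F f G hF hf hG hJoin p hp hGp K _ _ l c0 h0 hlines
    E _ _ P htr hP hFP
  classical
  have hcharK : Infinite K := Infinite.of_injective _ (algebraMap k K).injective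
  by_cases hc0 : cyc K P = 0
  · rw [hc0]; exact zero_mem _
  obtain ⟨-, -, hC3, hC4, -, hC6, hC7, -⟩ := hCYC K ι E
  have hess := (hC4 P hc0).1
  let : Algebra k E := ((algebraMap K E).comp (algebraMap k K)).toAlgebra
  have : IsScalarTower k K E := IsScalarTower.of_algebraMap_eq fun _ => rfl
  -- a direction
  obtain ⟨z, c, hz, -, hexp, hJ⟩ := Pool.Agent.Z15P.T2h69.H15.t_EXP k (AlgebraicClosure E) κ d f hf
    (fun i => algebraMap E (AlgebraicClosure E) (P (e.symm (Sum.inl i)))) Finset.univ (Finset.Icc 1 d) (by simp)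
    (by rw [Nat.card_Icc, Finset.card_univ]; omega)
  -- the field of definition
  let E2 : IntermediateField E (AlgebraicClosure E) := IntermediateField.adjoin E (Set.range z)
  have hfin : FiniteDimensional E E2 := by
    apply IntermediateField.finiteDimensional_adjoin
    intro x _
    exact (Algebra.IsAlgebraic.isAlgebraic x).isIntegral
  have : IsScalarTower k E E2 := IsScalarTower.of_algebraMap_eq fun _ => rfl
  have : IsScalarTower K E E2 := IsScalarTower.of_algebraMap_eq fun _ => rfl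
  have : IsScalarTower k K E2 := IsScalarTower.of_algebraMap_eq fun _ => rfl
  have hst : IsScalarTower k E2 (AlgebraicClosure E) := IsScalarTower.of_algebraMap_eq fun _ => rfl
  have hFG : IsFG l K E2 := by
    constructor
    · exact Algebra.EssFiniteType.comp K E E2
    · have h2 : Algebra.trdeg K E + Algebra.trdeg E E2 = Algebra.trdeg K E2 := trdeg_add_eq K E
      rw [← h2, htr, trdeg_eq_zero, add_zero]
  let z2 : κ → E2 := fun i => ⟨z i, IntermediateField.subset_adjoin _ _ ⟨i, rfl⟩⟩
  have hz2 : z2 ≠ 0 := by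
    intro h0
    apply hz
    funext i
    exact congrArg Subtype.val (congrFun h0 i)
  obtain ⟨P2, hP2⟩ : ∃ P2 : ι → E2, P2 = fun i => algebraMap E E2 (P i) := ⟨_, rfl⟩
  obtain ⟨Z2, hZ2⟩ : ∃ Z2 : ι → E2, Z2 = jv e z2 0 := ⟨_, rfl⟩
  obtain ⟨Y2, hY2⟩ : ∃ Y2 : ι → E2, Y2 = fun i => algebraMap K E2 (algebraMap k K (jv e 0 p i)) :=
    ⟨_, rfl⟩
  have hpoly := fun (M : Type) [Field M] [Algebra k M] [Algebra E2 M] [IsScalarTower k E2 M] (α β : M) =>
    exp_descend (k := k) (L := AlgebraicClosure E) (E2 := E2) (fun i => P2 (e.symm (Sum.inl i))) z2 c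
    (by
      intro A _ _ _ _ α β
      have h1 := hexp A α β
      rw [← h1]
      congr 2
      funext i
      rw [hP2]
      rfl) hJ M α β
  have hFP2 : aeval (fun i => P2 (e.symm (Sum.inl i))) f + aeval (fun i => P2 (e.symm (Sum.inr i))) G = 0 := by
    have h1 := congrArg (algebraMap E E2) hFP
    rw [aeval_map_algebraMap, ← jv_eta e P, hJoin, map_zero, map_add] at h1
    rw [← h1, hP2]
    congr 1
    · exact (comp_aeval_apply _ (IsScalarTower.toAlgHom k E E2) f).symm
    · exact (comp_aeval_apply _ (IsScalarTower.toAlgHom k E E2) G).symm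
  have hfz : ∀ (M : Type) [Field M] [Algebra k M] [Algebra E2 M] [IsScalarTower k E2 M] (β : M),
      aeval (fun i => β * algebraMap E2 M (z2 i)) f = 0 := by
    intro M _ _ _ _ β
    have h1 := hpoly M 0 β
    rw [zero_pow (by omega), zero_mul] at h1
    rw [← h1]
    congr 2
    funext i
    ring
  -- the two families of lines
  have hV1 : Vanish (map (algebraMap k K) F) P2 Z2 := by
    intro M _ _ _ _ α β
    let : Algebra k M := ((algebraMap K M).comp (algebraMap k K)).toAlgebra
    have : IsScalarTower k K M := IsScalarTower.of_algebraMap_eq fun _ => rfl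
    have : IsScalarTower k E2 M := IsScalarTower.of_algebraMap_eq fun x => by
      rw [IsScalarTower.algebraMap_apply k K E2, ← IsScalarTower.algebraMap_apply K E2 M]
      rfl
    have h0 : (fun i => α * algebraMap E2 M (P2 i) + β * algebraMap E2 M (Z2 i)) =
        jv e (fun i => α * algebraMap E2 M (P2 (e.symm (Sum.inl i))) + β * algebraMap E2 M (z2 i))
          (fun i => α * algebraMap E2 M (P2 (e.symm (Sum.inr i)))) := by
      rw [← jv_eta e (fun i => α * algebraMap E2 M (P2 i) + β * algebraMap E2 M (Z2 i))]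
      congr 1
      · funext i
        rw [hZ2, jv_inl]
      · funext i
        rw [hZ2, jv_inr]
        simp
    have h4 : aeval (fun i => algebraMap E2 M (P2 (e.symm (Sum.inr i)))) G =
        algebraMap E2 M (aeval (fun i => P2 (e.symm (Sum.inr i))) G) :=
      (comp_aeval_apply _ (IsScalarTower.toAlgHom k E2 M) G).symm
    rw [aeval_map_algebraMap, h0, hJoin, hpoly M α β, aeval_smul hG, h4, ← mul_add, ← map_add, hFP2, map_zero,
      mul_zero]
  have hV2 : Vanish (map (algebraMap k K) F) Z2 Y2 := by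
    intro M _ _ _ _ α β
    let : Algebra k M := ((algebraMap K M).comp (algebraMap k K)).toAlgebra
    have : IsScalarTower k K M := IsScalarTower.of_algebraMap_eq fun _ => rfl
    have : IsScalarTower k E2 M := IsScalarTower.of_algebraMap_eq fun x => by
      rw [IsScalarTower.algebraMap_apply k K E2, ← IsScalarTower.algebraMap_apply K E2 M]
      rfl
    have h0 : (fun i => α * algebraMap E2 M (Z2 i) + β * algebraMap E2 M (Y2 i)) =
        jv e (fun i => α * algebraMap E2 M (z2 i)) (fun i => β * algebraMap k M (p i)) := by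
      rw [← jv_eta e (fun i => α * algebraMap E2 M (Z2 i) + β * algebraMap E2 M (Y2 i))]
      congr 1
      · funext i
        rw [hZ2, hY2, jv_inl]
        beta_reduce
        rw [jv_inl]
        simp
      · funext i
        rw [hZ2, hY2, jv_inr]
        beta_reduce
        rw [jv_inr]
        simp only [Pi.zero_apply, map_zero, mul_zero, zero_add]
        rw [← IsScalarTower.algebraMap_apply K E2 M, ← IsScalarTower.algebraMap_apply k K M]
    have h4 : aeval (fun i => algebraMap k M (p i)) G = algebraMap k M (eval p G) := by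
      rw [← MvPolynomial.coe_aeval_eq_eval]
      exact (comp_aeval_apply _ (IsScalarTower.toAlgHom k k M) G).symm
    rw [aeval_map_algebraMap, h0, hJoin, hfz M α, aeval_smul hG, h4, hGp, map_zero, mul_zero, add_zero]
  obtain ⟨j0, hj0⟩ : ∃ j, z2 j ≠ 0 := by
    by_contra h
    push Not at h
    exact hz2 (funext h)
  obtain ⟨l0, hl0⟩ : ∃ l, p l ≠ 0 := by
    by_contra h
    push Not at h
    exact hp (funext h)
  have hli2 : LinearIndependent E2 ![Z2, Y2] := by
    refine li_of_minor (i := e.symm (Sum.inl j0)) (j := e.symm (Sum.inr l0)) ?_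
    rw [hZ2, hY2, jv_inl, jv_inr]
    beta_reduce
    rw [jv_inl, jv_inr]
    simp [hj0, hl0]
  have hgood : ∀ {A B : ι → E2}, Vanish (map (algebraMap k K) F) A B → ∀ {t : Place K E2} {a b : ι → t.RF},
      IsLim t A B a b → Algebra.trdeg K t.RF + 1 = l → (∃ c c' : E2, ∀ i, c * A i + c' * B i = jv e z2 0 i) →
      cyc K (gen a b) ∈ Sat K l (map (algebraMap k K) F) c0 := by
    intro A B hV t a b hlim htt hcc
    obtain ⟨c, c', hcc⟩ := hcc
    obtain ⟨z0, v, hz0, hm1, hm2, hli⟩ := lim_special e hlim hz2 hcc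
    have h1 := hlines t.RF htt z0 v hli (Vanish.span (lim_vanish hlim hV) hm1 hm2)
    have h2 := (hCYC K ι t.RF).2.2.2.2.2.2.1 a b (jv e z0 0) v hlim.1 hli hm1 hm2
    rwa [h2] at h1
  -- the second family
  obtain ⟨S2, n2, a2, b2, hlim2, hS2, hrat2⟩ := hR K ι E2 l hFG (map (algebraMap k K) F) Z2 Y2 hli2 hV2
  have hc2 : ∑ t ∈ S2, n2 t • cyc K (gen (a2 t) (b2 t)) ∈ Sat K l (map (algebraMap k K) F) c0 := by
    refine sum_mem fun t ht => zsmul_mem ?_ _
    refine hgood hV2 (hlim2 t) (hS2 t ht) ⟨1, 0, fun i => ?_⟩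
    rw [hZ2]
    ring
  have hcY : cyc K Y2 ∈ Sat K l (map (algebraMap k K) F) c0 := by
    by_cases hl : l = 0
    · have h1 := (hCYC K ι K).2.2.1 E2 (fun i => algebraMap k K (jv e 0 p i))
      rw [hY2, h1]
      exact nsmul_mem (h0 hl) _
    · have h1 := (hCYC K ι E2).2.2.2.2.2.1 (by rw [hFG.2]; exact_mod_cast hl) (fun i => algebraMap k K (jv e 0 p i))
      rw [hY2, h1]
      exact zero_mem _
  have hcZ : cyc K Z2 ∈ Sat K l (map (algebraMap k K) F) c0 := by
    have h1 := add_mem (sub_mem (Sat.of_rat (c0 := c0) hrat2) hc2) hcY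
    have h2 : cyc K Z2 - cyc K Y2 + ∑ t ∈ S2, n2 t • cyc K (gen (a2 t) (b2 t)) -
        ∑ t ∈ S2, n2 t • cyc K (gen (a2 t) (b2 t)) + cyc K Y2 = cyc K Z2 := by abel
    rwa [h2] at h1
  -- it remains to compare `P` and `Z`
  have hcP : cyc K P2 = Module.finrank E E2 • cyc K P := by
    rw [hP2]
    exact hC3 E2 P
  suffices hmain : cyc K P2 ∈ Sat K l (map (algebraMap k K) F) c0 by
    rw [hcP] at hmain
    exact Sat.of_nsmul Module.finrank_pos hmain
  by_cases hli1 : LinearIndependent E2 ![P2, Z2]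
  · obtain ⟨S1, n1, a1, b1, hlim1, hS1, hrat1⟩ := hR K ι E2 l hFG (map (algebraMap k K) F) P2 Z2 hli1 hV1
    have hc1 : ∑ t ∈ S1, n1 t • cyc K (gen (a1 t) (b1 t)) ∈ Sat K l (map (algebraMap k K) F) c0 := by
      refine sum_mem fun t ht => zsmul_mem ?_ _
      refine hgood hV1 (hlim1 t) (hS1 t ht) ⟨0, 1, fun i => ?_⟩
      rw [hZ2]
      ring
    have h1 := add_mem (sub_mem (Sat.of_rat (c0 := c0) hrat1) hc1) hcZ
    have h2 : cyc K P2 - cyc K Z2 + ∑ t ∈ S1, n1 t • cyc K (gen (a1 t) (b1 t)) -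
        ∑ t ∈ S1, n1 t • cyc K (gen (a1 t) (b1 t)) + cyc K Z2 = cyc K P2 := by abel
    rwa [h2] at h1
  · have hP2ne : P2 ≠ 0 := by
      intro h0
      apply hP
      funext i
      have h1 := congrFun h0 i
      rw [hP2] at h1
      simpa using h1
    have hZ2ne : Z2 ≠ 0 := by
      rw [hZ2]
      exact jv_ne_zero e hz2 0
    have hdep : ∃ r : E2, r ≠ 0 ∧ P2 = fun i => r * Z2 i := by
      rw [li_iff] at hli1
      push Not at hli1
      obtain ⟨α, β, h0, hne⟩ := hli1
      have hα : α ≠ 0 := by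
        rintro rfl
        rw [zero_smul, zero_add] at h0
        exact (smul_eq_zero.1 h0).elim (fun h => hne rfl h) hZ2ne
      have hβ : β ≠ 0 := by
        rintro rfl
        rw [zero_smul, add_zero] at h0
        exact (smul_eq_zero.1 h0).elim hα hP2ne
      refine ⟨-(β / α), neg_ne_zero.2 (div_ne_zero hβ hα), ?_⟩
      funext i
      have h1 := congrFun h0 i
      simp only [Pi.add_apply, Pi.smul_apply, smul_eq_mul, Pi.zero_apply] at h1
      field_simp
      linear_combination h1
    obtain ⟨r, hr, hPZ⟩ := hdep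
    rw [hPZ, (hCYC K ι E2).1 Z2 r hr]
    exact hcZ

end Pool.Agent.Z15P.T2h62.J15
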