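import Pool.Agent.Z15P.T2h62.J15.SBi

/-!
The families of special lines are good.
-/

set_option autoImplicit false

open FF FF.PP MvPolynomial Pool.Agent.Z15P.Z15.H Pool.Agent.Z15P.Z15.J Pool.Agent.Z15P.Z15.J.Stm

namespace Pool.Agent.Z15P.T2h62.J15

open Pool.Agent.Z15P.T2h62.H15 (reg_sub exists_prim li_iff li_of_minor exists_minor)

section

variable {ι κ ν K1 : Type} [Field K1] [Fintype ν] [DecidableEq ν]

theorem lm_phi (e : ι ≃ κ ⊕ ν) (x : κ → K1) {M : Type} [Field M] [Algebra K1 M] (y : ν → M) (v : M) :
    lm (Stm.phi e x) (Sum.elim y fun _ => v) = jv e (fun i => v * algebraMap K1 M (x i)) y := by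
  funext i
  obtain ⟨w, rfl⟩ := e.symm.surjective i
  unfold lm
  rw [Fintype.sum_sum_type]
  rcases w with a | b
  · rw [jv_inl]
    simp only [Sum.elim_inl, Sum.elim_inr, Stm.phi, jv_inl, Pi.zero_apply, map_zero, mul_zero,
      Finset.sum_const_zero, zero_add, Finset.univ_unique, Finset.sum_const, Finset.card_singleton, one_smul]
  · rw [jv_inr]
    simp only [Sum.elim_inl, Sum.elim_inr, Stm.phi, jv_inr, Pi.zero_apply, map_zero, mul_zero,
      Finset.sum_const_zero, add_zero]
    rw [Finset.sum_eq_single b]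
    · rw [Pi.single_eq_same, map_one, mul_one]
    · intro b' _ hb
      rw [Pi.single_eq_of_ne (Ne.symm hb), map_zero, mul_zero]
    · intro h
      exact absurd (Finset.mem_univ b) h

omit [Fintype ν] [DecidableEq ν] in
theorem elim_eta {M : Type} (w : ν ⊕ Unit → M) : Sum.elim (fun b => w (Sum.inl b)) (fun _ => w (Sum.inr ())) = w := by
  funext i
  rcases i with b | u <;> rfl

omit [Fintype ν] [DecidableEq ν] in
theorem aeval_Gc {k : Type} [Field k] {d : ℕ} {G : MvPolynomial ν k} {c : k} {A : Type} [CommRing A] [Algebra k A]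
    (w : ν ⊕ Unit → A) : aeval w (Gc d G c) =
      aeval (fun b => w (Sum.inl b)) G + algebraMap k A c * w (Sum.inr ()) ^ d := by
  unfold Gc
  rw [map_add, aeval_rename, map_mul, aeval_C, map_pow, aeval_X]
  rfl

omit [Fintype ν] [DecidableEq ν] in
theorem cst_jv (e : ι ≃ κ ⊕ ν) (z : κ → K1) {M : Type} [Field M] [Algebra K1 M] :
    cst M (jv e z 0) = jv e (fun a => algebraMap K1 M (z a)) 0 := by
  unfold cst
  rw [jv_comp]
  congr 1
  funext b
  exact map_zero _

omit [Fintype ν] [DecidableEq ν] in
/-- the points of special lines are independent -/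
theorem li_special (e : ι ≃ κ ⊕ ν) {z x : κ → K1} (h : LinearIndependent K1 ![z, x]) {y : ν → K1} {v : K1}
    (hyv : y ≠ 0 ∨ v ≠ 0) : LinearIndependent K1 ![jv e z 0, jv e (fun i => v * x i) y] := by
  by_cases hy : y = 0
  · obtain ⟨i, j, hij⟩ := exists_minor h
    refine li_of_minor (i := e.symm (Sum.inl i)) (j := e.symm (Sum.inl j)) ?_
    simp only [jv_inl]
    have h1 : z i * (v * x j) - z j * (v * x i) = v * (z i * x j - z j * x i) := by ring
    rw [h1]
    exact mul_ne_zero (hyv.resolve_left (fun h => h hy)) hij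
  · obtain ⟨l, hl⟩ : ∃ l, y l ≠ 0 := by
      by_contra h
      push Not at h
      exact hy (funext h)
    obtain ⟨j, hj⟩ : ∃ j, z j ≠ 0 := by
      by_contra h0
      push Not at h0
      have h1 : z = 0 := funext h0
      exact one_ne_zero ((li_iff.1 h) 1 0 (by rw [h1]; simp)).1
    refine li_of_minor (i := e.symm (Sum.inl j)) (j := e.symm (Sum.inr l)) ?_
    simp only [jv_inl, jv_inr, Pi.zero_apply, zero_mul, sub_zero]
    exact mul_ne_zero hj hl

end

open Classical in
/-- GOOD -/
theorem t_J_GOOD : T_GOOD := by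
  intro k _ _ _ ι κ ν _ _ _ d hd e F f G hF hf hG hJoin K _ _ K1 _ _ _ _ z x c hzx hc hfzx
  refine ⟨⟨?_, ?_⟩, fun M _ _ y v => lm_phi e x y v⟩
  · intro κ' _ _ w hw hw0
    rw [← elim_eta w, lm_phi, cst_jv]
    refine li_special e (z := fun a => algebraMap K1 κ' (z a)) (x := fun a => algebraMap K1 κ' (x a)) ?_ ?_
    · exact li_map (algebraMap K1 κ') hzx
    · by_contra h
      push Not at h
      apply hw
      rw [← elim_eta w]
      funext i
      rcases i with b | u
      · exact congrFun h.1 b
      · exact h.2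
  · intro κ' _ _ _ _ w hw0
    rw [← elim_eta w, lm_phi, cst_jv]
    intro M _ _ _ _ α β
    let i1 : Algebra K1 M := ((algebraMap κ' M).comp (algebraMap K1 κ')).toAlgebra
    let i2 : Algebra k M := ((algebraMap K M).comp (algebraMap k K)).toAlgebra
    let i3 : Algebra k κ' := ((algebraMap K κ').comp (algebraMap k K)).toAlgebra
    have t0 : IsScalarTower k K κ' := IsScalarTower.of_algebraMap_eq fun _ => rfl
    have t1 : IsScalarTower k K M := IsScalarTower.of_algebraMap_eq fun _ => rfl
    have t2 : IsScalarTower K1 κ' M := IsScalarTower.of_algebraMap_eq fun _ => rfl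
    have t3 : IsScalarTower k K1 κ' := IsScalarTower.of_algebraMap_eq fun a => by
      rw [IsScalarTower.algebraMap_apply k K κ', IsScalarTower.algebraMap_apply k K K1,
        ← IsScalarTower.algebraMap_apply K K1 κ']
    have t4 : IsScalarTower k κ' M := IsScalarTower.of_algebraMap_eq fun a => by
      rw [IsScalarTower.algebraMap_apply k K κ', ← IsScalarTower.algebraMap_apply K κ' M]
      rfl
    have t5 : IsScalarTower k K1 M := IsScalarTower.of_algebraMap_eq fun a => by
      rw [IsScalarTower.algebraMap_apply k κ' M, IsScalarTower.algebraMap_apply k K1 κ',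
        ← IsScalarTower.algebraMap_apply K1 κ' M]
    rw [aeval_map_algebraMap, aeval_Gc] at hw0
    have h0 : (fun i => α * algebraMap κ' M (jv e (fun a => algebraMap K1 κ' (z a)) 0 i) +
        β * algebraMap κ' M (jv e (fun a => w (Sum.inr ()) * algebraMap K1 κ' (x a))
          (fun b => w (Sum.inl b)) i)) =
        jv e (fun a => α * algebraMap K1 M (z a) + (β * algebraMap κ' M (w (Sum.inr ()))) * algebraMap K1 M (x a))
          (fun b => β * algebraMap κ' M (w (Sum.inl b))) := by
      funext i
      obtain ⟨q, rfl⟩ := e.symm.surjective i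
      rcases q with a | b
      · simp only [jv_inl, map_mul, ← IsScalarTower.algebraMap_apply K1 κ' M]
        ring
      · simp only [jv_inr, Pi.zero_apply, map_zero, mul_zero, zero_add]
    have h4 : aeval (fun b => algebraMap κ' M (w (Sum.inl b))) G =
        algebraMap κ' M (aeval (fun b => w (Sum.inl b)) G) :=
      (comp_aeval_apply _ (IsScalarTower.toAlgHom k κ' M) G).symm
    have h5 := congrArg (algebraMap κ' M) hw0
    rw [map_zero, map_add, map_mul, map_pow, ← IsScalarTower.algebraMap_apply k κ' M] at h5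
    rw [aeval_map_algebraMap, h0, hJoin, hfzx, aeval_smul hG, h4]
    linear_combination β ^ d * h5

end Pool.Agent.Z15P.T2h62.J15
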