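import Pool.Agent.Z15P.Z15.J.Stm2
import Pool.Agent.Z15P.T2h62.H15.Base

/-!
Limits of families of lines at places with arbitrary residue fields.
-/

set_option autoImplicit false

open FF FF.PP MvPolynomial Pool.Agent.Z15P.Z15.H Pool.Agent.Z15P.Z15.J

namespace Pool.Agent.Z15P.T2h62.J15

open Pool.Agent.Z15P.T2h62.H15 (reg_sub exists_prim li_iff li_of_minor exists_minor)

section

variable {K : Type} [Field K] {E : Type} [Field E] [Algebra K E] {t : Place K E} {ι : Type}

theorem reg_inv {x : E} (hx : t.Reg x) (h : t.red x ≠ 0) : x ≠ 0 ∧ t.ord x = 0 ∧ t.Reg x⁻¹ := by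
  have h2 : x ≠ 0 := by
    rintro rfl
    exact h t.red_zero
  have h3 : t.ord x = 0 := by
    have h4 := (t.reg_iff h2).1 hx
    by_contra h5
    exact h ((t.red_eq_zero_iff hx).2 (Or.inr (by omega)))
  exact ⟨h2, h3, Or.inr (by rw [t.ord_inv, h3, neg_zero])⟩

/-- regular combinations of regular independent vectors -/
theorem comb {A B : ι → E} (hA : ∀ i, t.Reg (A i)) (hB : ∀ i, t.Reg (B i))
    (hli : LinearIndependent t.RF ![fun i => t.red (A i), fun i => t.red (B i)]) {l m : E}
    (h : ∀ i, t.Reg (l * A i + m * B i)) : t.Reg l ∧ t.Reg m ∧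
      ∀ i, t.red (l * A i + m * B i) = t.red l * t.red (A i) + t.red m * t.red (B i) := by
  obtain ⟨i, j, hij⟩ := exists_minor hli
  have e1 : t.Reg (A i * B j - A j * B i) := reg_sub (t.reg_mul (hA i) (hB j)) (t.reg_mul (hA j) (hB i))
  have e2 : t.red (A i * B j - A j * B i) ≠ 0 := by
    rw [t.red_sub (t.reg_mul (hA i) (hB j)) (t.reg_mul (hA j) (hB i)), t.red_mul (hA i) (hB j),
      t.red_mul (hA j) (hB i)]
    exact hij
  obtain ⟨hM, -, hinv⟩ := reg_inv e1 e2
  have hl : t.Reg l := by
    have h1 : l = ((l * A i + m * B i) * B j - (l * A j + m * B j) * B i) * (A i * B j - A j * B i)⁻¹ := by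
      rw [eq_mul_inv_iff_mul_eq₀ hM]; ring
    rw [h1]
    exact t.reg_mul (reg_sub (t.reg_mul (h i) (hB j)) (t.reg_mul (h j) (hB i))) hinv
  have hm : t.Reg m := by
    have h1 : m = (A i * (l * A j + m * B j) - A j * (l * A i + m * B i)) * (A i * B j - A j * B i)⁻¹ := by
      rw [eq_mul_inv_iff_mul_eq₀ hM]; ring
    rw [h1]
    exact t.reg_mul (reg_sub (t.reg_mul (hA i) (h j)) (t.reg_mul (hA j) (h i))) hinv
  refine ⟨hl, hm, fun n => ?_⟩
  rw [t.red_add (t.reg_mul hl (hA n)) (t.reg_mul hm (hB n)), t.red_mul hl (hA n), t.red_mul hm (hB n)]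

/-- regular vectors in the span of `A`, `B` reduce to vectors in the span of the limit -/
theorem lim_mem {A B : ι → E} {a b : ι → t.RF} (hlim : IsLim t A B a b) {c c' : E} {w : ι → t.RF}
    (h : ∀ i, t.Reg (c * A i + c' * B i) ∧ t.red (c * A i + c' * B i) = w i) :
    w ∈ Submodule.span t.RF {a, b} := by
  obtain ⟨hli, p, q, r, s, hD, hA, hB⟩ := hlim
  have ha : (fun i => t.red (p * A i + q * B i)) = a := funext fun i => (hA i).2
  have hb : (fun i => t.red (r * A i + s * B i)) = b := funext fun i => (hB i).2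
  have hw : (fun i => t.red (c * A i + c' * B i)) = w := funext fun i => (h i).2
  have key : ∀ i, c * A i + c' * B i = ((c * s - c' * r) / (p * s - q * r)) * (p * A i + q * B i) +
      ((c' * p - c * q) / (p * s - q * r)) * (r * A i + s * B i) := by
    intro i
    rw [div_mul_eq_mul_div, div_mul_eq_mul_div, ← add_div, eq_div_iff hD]
    ring
  have h1 := comb (A := fun i => p * A i + q * B i) (B := fun i => r * A i + s * B i)
    (fun i => (hA i).1) (fun i => (hB i).1) (by rw [ha, hb]; exact hli)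
    (l := (c * s - c' * r) / (p * s - q * r)) (m := (c' * p - c * q) / (p * s - q * r)) (fun i => by
      rw [← key]
      exact (h i).1)
  rw [Submodule.mem_span_pair]
  refine ⟨t.red ((c * s - c' * r) / (p * s - q * r)), t.red ((c' * p - c * q) / (p * s - q * r)), ?_⟩
  rw [← hw]
  funext i
  rw [key, h1.2.2 i]
  simp only [Pi.add_apply, Pi.smul_apply, smul_eq_mul, ← congrFun ha i, ← congrFun hb i]

theorem exists_lim [Finite ι] (t : Place K E) {A B : ι → E} (h : LinearIndependent E ![A, B]) :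
    ∃ (a b : ι → t.RF) (p r s : E), p ≠ 0 ∧ s ≠ 0 ∧ LinearIndependent t.RF ![a, b] ∧
      (∀ i, t.Reg (p * A i) ∧ t.red (p * A i) = a i) ∧
      ∀ i, t.Reg (r * A i + s * B i) ∧ t.red (r * A i + s * B i) = b i := by
  have hli := li_iff.1 h
  have hA : A ≠ 0 := by
    intro h0
    exact one_ne_zero (hli 1 0 (by rw [h0]; simp)).1
  obtain ⟨j, hj, hrA⟩ := exists_prim t hA
  set B1 : ι → E := fun i => B i - B j * ((A j)⁻¹ * A i) with hB1
  have hB1ne : B1 ≠ 0 := by
    intro h0
    have := hli (-(B j * (A j)⁻¹)) 1 (by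
      funext i
      have h1 := congrFun h0 i
      simp only [hB1, Pi.zero_apply] at h1
      simp only [Pi.add_apply, Pi.smul_apply, smul_eq_mul, Pi.zero_apply]
      linear_combination h1)
    exact one_ne_zero this.2
  obtain ⟨l, hl, hrB⟩ := exists_prim t hB1ne
  have hB1j : B1 j = 0 := by
    simp only [hB1]
    rw [inv_mul_cancel₀ hj]
    ring
  refine ⟨fun i => t.red ((A j)⁻¹ * A i), fun i => t.red ((B1 l)⁻¹ * B1 i), (A j)⁻¹,
    -((B1 l)⁻¹ * B j * (A j)⁻¹), (B1 l)⁻¹, inv_ne_zero hj, inv_ne_zero hl, ?_, fun i => ⟨hrA i, rfl⟩,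
    fun i => ?_⟩
  · refine li_of_minor (i := j) (j := l) ?_
    rw [inv_mul_cancel₀ hj, inv_mul_cancel₀ hl, hB1j, mul_zero, t.red_zero, t.red_one, mul_zero, sub_zero,
      mul_one]
    exact one_ne_zero
  · have h1 : -((B1 l)⁻¹ * B j * (A j)⁻¹) * A i + (B1 l)⁻¹ * B i = (B1 l)⁻¹ * B1 i := by
      simp only [hB1]
      ring
    rw [h1]
    exact ⟨hrB i, rfl⟩

/-- a form which vanishes at all points of the generic member of the family vanishes on the limit -/
theorem lim_vanish {F : MvPolynomial ι K} {A B : ι → E} {a b : ι → t.RF}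
    (hlim : IsLim t A B a b) (h : Vanish F A B) : Vanish F a b := by
  obtain ⟨hli, p, q, r, s, hD, hA, hB⟩ := hlim
  set A' : ι → t.O := fun i => ⟨p * A i + q * B i, (hA i).1⟩ with hA'
  set B' : ι → t.O := fun i => ⟨r * A i + s * B i, (hB i).1⟩ with hB'
  have ha : ∀ i, t.resHom (A' i) = a i := fun i => by rw [← (hA i).2, t.red_of_reg (hA i).1]
  have hb : ∀ i, t.resHom (B' i) = b i := fun i => by rw [← (hB i).2, t.red_of_reg (hB i).1]
  let σ : K →+* t.O := (algebraMap K E).codRestrict t.O (fun c => t.reg_const c)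
  set G : MvPolynomial (Fin 2) t.O :=
    eval₂ (C.comp σ) (fun i => C (A' i) * X 0 + C (B' i) * X 1) F with hG
  have hG0 : G = 0 := by
    have hinj : Function.Injective (algebraMap (MvPolynomial (Fin 2) E)
        (FractionRing (MvPolynomial (Fin 2) E))) := IsFractionRing.injective _ _
    have hinj2 : Function.Injective (map (σ := Fin 2) t.O.subtype) :=
      map_injective _ Subtype.val_injective
    apply hinj2
    apply hinj
    rw [map_zero, map_zero, hG, eval₂_comp_left, eval₂_comp_left]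
    have h1 := h (FractionRing (MvPolynomial (Fin 2) E))
      (algebraMap (MvPolynomial (Fin 2) E) (FractionRing (MvPolynomial (Fin 2) E))
        (C p * X 0 + C r * X 1))
      (algebraMap (MvPolynomial (Fin 2) E) (FractionRing (MvPolynomial (Fin 2) E))
        (C q * X 0 + C s * X 1))
    rw [← h1, aeval_def]
    congr 1
    · ext c
      simp only [RingHom.comp_apply, map_C]
      have e0 : t.O.subtype (σ c) = algebraMap K E c := rfl
      rw [e0, IsScalarTower.algebraMap_apply K E (FractionRing (MvPolynomial (Fin 2) E))]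
      rfl
    · funext i
      simp only [Function.comp_apply, map_add, map_mul, map_C, map_X]
      have e1 : t.O.subtype (A' i) = p * A i + q * B i := rfl
      have e2 : t.O.subtype (B' i) = r * A i + s * B i := rfl
      have e3 : ∀ x : E, algebraMap E (FractionRing (MvPolynomial (Fin 2) E)) x =
          algebraMap (MvPolynomial (Fin 2) E) (FractionRing (MvPolynomial (Fin 2) E)) (C x) := fun x => rfl
      rw [e1, e2, e3, e3]
      simp only [map_add, map_mul]
      ring
  intro M _ _ _ _ α β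
  have h2 := congrArg (eval₂Hom ((algebraMap t.RF M).comp t.resHom) ![α, β]) hG0
  rw [map_zero, hG, eval₂_comp_left] at h2
  rw [← h2, aeval_def]
  congr 1
  · ext c
    simp only [RingHom.comp_apply, coe_eval₂Hom, eval₂_C]
    rw [IsScalarTower.algebraMap_apply K t.RF M, t.algebraMap_RF, t.red_of_reg (t.reg_const c)]
    rfl
  · funext i
    simp only [Function.comp_apply, coe_eval₂Hom, eval₂_C, eval₂_X, eval₂_add, eval₂_mul,
      RingHom.comp_apply, ha, hb, Matrix.cons_val_zero, Matrix.cons_val_one]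
    ring

theorem li_map {L : Type} [Field L] {κ : Type} [Field κ] (φ : κ →+* L) {a b : ι → κ}
    (h : LinearIndependent κ ![a, b]) :
    LinearIndependent L ![fun i => φ (a i), fun i => φ (b i)] := by
  obtain ⟨i, j, hij⟩ := exists_minor h
  refine li_of_minor (i := i) (j := j) ?_
  rw [← map_mul, ← map_mul, ← map_sub]
  exact (map_ne_zero_iff _ φ.injective).2 hij

theorem lim_ext {A B : ι → E} {M : Type} [Field M] [Algebra K M] [Algebra E M] [IsScalarTower K E M]
    {v : Place K M} {e : ℕ} (hv : Over v t e) {a b : ι → t.RF} (hlim : IsLim t A B a b) :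
    IsLim v (fun i => algebraMap E M (A i)) (fun i => algebraMap E M (B i))
      (fun i => hv.resMap (a i)) (fun i => hv.resMap (b i)) := by
  obtain ⟨hli, p, q, r, s, hD, hA, hB⟩ := hlim
  refine ⟨li_map (hv.resMap : t.RF →+* v.RF) hli, algebraMap E M p, algebraMap E M q, algebraMap E M r,
    algebraMap E M s, ?_, fun i => ?_, fun i => ?_⟩
  · rw [← map_mul, ← map_mul, ← map_sub]
    exact (map_ne_zero_iff _ (algebraMap E M).injective).2 hD
  · rw [← map_mul, ← map_mul, ← map_add, ← hv.resMap_red (hA i).1, (hA i).2]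
    exact ⟨hv.reg.2 (hA i).1, rfl⟩
  · rw [← map_mul, ← map_mul, ← map_add, ← hv.resMap_red (hB i).1, (hB i).2]
    exact ⟨hv.reg.2 (hB i).1, rfl⟩

end

/-- LIM2 -/
theorem t_J_LIM2 : Pool.Agent.Z15P.Z15.J.Stm.T_LIM2 := by
  intro K _ _ ι E _ _ _ A B h t
  refine ⟨?_, fun a b hlim c c' w hw => lim_mem hlim hw, ?_, fun a b hlim F hF => lim_vanish hlim hF, ?_⟩
  · obtain ⟨a, b, p, r, s, hp, hs, hab, hA, hB⟩ := exists_lim t h
    refine ⟨a, b, p, r, s, hp, hs, hab, hA, hB, hab, p, 0, r, s, ?_, fun i => ?_, hB⟩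
    · rw [zero_mul, sub_zero]
      exact mul_ne_zero hp hs
    · rw [zero_mul, add_zero]
      exact hA i
  · intro a b a' b' h1 h2
    obtain ⟨-, p, q, r, s, -, hA, hB⟩ := h2
    exact ⟨lim_mem h1 hA, lim_mem h1 hB⟩
  · intro M _ _ _ _ v e hv a b hlim
    exact lim_ext hv hlim

end Pool.Agent.Z15P.T2h62.J15
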